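import Pool.Agent.Lib.EX.MDefs

/-! Project ex41, singular case: gluing, and poles along exceptional components. -/

open scoped Classical Topology ContDiff ComplexOrder Matrix
open Set MeasureTheory Complex Metric Filter

noncomputable section

namespace Pool.Agent.Lib.EXS

open Pool.Agent.Lib.SV (E)
open Pool.Agent.Lib.HS32 Pool.Agent.Lib.EX

variable {n : ℕ} {ι : Type} [Fintype ι] [DecidableEq ι]

/-- The complement of the divisor. -/
def off {M : Mf n} (D : Ad M ι) : Set M.X :=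
  {x | ∀ b, x ∈ (D.e b).source → Off (D.c b) (D.e b x)}

/-- The extension by continuity across the divisor. -/
def glu {M : Mf n} (D : Ad M ι) {F : Type} [TopologicalSpace F] [Nonempty F] (f : M.X → F)
    (x : M.X) : F := limUnder (𝓝[off D] x) f

/-- Local continuous extensions glue. -/
def St_GLU : Prop := ∀ (n : ℕ) (M : Mf n) (ι : Type) [Fintype ι] [DecidableEq ι] (D : Ad M ι)
  (F : Type) [TopologicalSpace F] [T2Space F] [Nonempty F] (f : M.X → F) (d : D.A) (g : E n → F),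
  ∀ z ∈ B2 n, (∀ᶠ w in 𝓝 z, ContinuousAt g w) →
    (∀ᶠ w in 𝓝 z, Off (D.c d) w → D.rd f d w = g w) → D.rd (glu D f) d =ᶠ[𝓝 z] g

/-- Poles along exceptional components drop. -/
def St_EXC : Prop := ∀ (n : ℕ) (M : Mf n) (ι : Type) [Fintype ι] [DecidableEq ι] (D : Ad M ι)
  (a : ι → ℕ) (ex : Set ι) (B : Bl D a ex) (ρ : ℝ) (q : ι → ℤ) (H : M.X → ℂ), ρ ≤ 1 →
  (∀ i ∉ ex, q i ≤ a i - sp a i) →
  (D.On {x ∈ B.W | ‖B.p x‖ < ρ} fun d z => PolH (D.c d) q (D.rd H d) z) →
  D.On {x ∈ B.W | ‖B.p x‖ < ρ} fun d z => PolH (D.c d) (fun i => a i - sp a i) (D.rd H d) z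

end Pool.Agent.Lib.EXS
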