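import Pool.Agent.Lib.EX.MDefs

/-! Project ex41, singular case: the statement of the relative vanishing theorem. -/

noncomputable section

namespace Pool.Agent.Lib.EXS

open Pool.Agent.Lib.SV (E)
open Pool.Agent.Lib.HS32 Pool.Agent.Lib.EX

/-- Relative vanishing. -/
def St_RV : Prop := ∀ (n : ℕ) (M : Mf n) [M.Cpt] (ι : Type) [Fintype ι] [DecidableEq ι]
  (D : Ad M ι) (R : Rs D) (b : D.A) (t ρ : ℝ) (P Q : ι → ℤ) (g : D.A → E n → ℂ), ρ < 1 →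
  (∀ i, P i = ⌈t * R.a i + R.k i / R.m⌉) → (∀ i, R.a i = 0 → R.k i = 0 → Q i ≤ 0) →
  (D.All fun d z => PolH (D.c d) Q (g d) z) → D.Dif (fun d => PolH (D.c d) P) g →
  ∃ F : M.X → ℂ, D.On {x | x ∈ (R.B b).W ∧ ‖(R.B b).p x‖ < ρ} fun d z =>
    PolH (D.c d) P (D.rd F d - g d) z

end Pool.Agent.Lib.EXS
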