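import Pool.Agent.Lib.EXS.L14
import Pool.Agent.Lib.EXS.EXC0
import Pool.Agent.Lib.EXS.RV0

/-! Project ex41: the induction on the level. -/

open scoped Classical Topology ContDiff
open Set Complex Metric Filter

set_option linter.unusedVariables false
set_option linter.unusedSectionVars false

noncomputable section

namespace Pool.Agent.Lib.EXS

open Pool.Agent.Lib.SV (E)
open Pool.Agent.Lib.HS32 Pool.Agent.Lib.EX

namespace L14

section kit

variable {n : ℕ} {ι : Type} [Fintype ι] [DecidableEq ι] {c : ι → Option (Fin n)} {G K : ι → ℤ}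
  {F F' : E n → ℂ} {z : E n}

theorem pcg (hD : St_MOD) (h : PolH c G F z) (e : ∀ᶠ y in 𝓝 z, Off c y → F' y = F y) :
    PolH c G F' z := (hD n ι c G 0 ∅ 0).2.1.cong F F' z h e

theorem p0 (hD : St_MOD) (e : ∀ᶠ y in 𝓝 z, Off c y → F y = 0) : PolH c G F z :=
  pcg hD ((hD n ι c G 0 ∅ 0).2.1.zero z) e

theorem padd (hD : St_MOD) (h : PolH c G F z) (h' : PolH c G F' z) : PolH c G (F + F') z :=
  (hD n ι c G 0 ∅ 0).2.1.add F F' z h h'

theorem psub (hD : St_MOD) (h : PolH c G F z) (h' : PolH c G F' z) : PolH c G (F - F') z :=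
  pcg hD (padd hD h ((hD n ι c G 0 ∅ 0).2.1.mul (fun _ => -1) F' z
    (Eventually.of_forall fun _ => differentiableAt_const _) h'))
    (Eventually.of_forall fun y _ => by simp [sub_eq_add_neg])

theorem pmo (hI : St_INC) (hK : G ≤ K) (h : PolH c G F z) : PolH c K F z :=
  ((hI n ι c G 0 ∅ 0 F z).2.2.1 K hK).2 h

end kit

variable {n : ℕ} {M : Mf n} [M.Cpt] {ι : Type} [Fintype ι] [DecidableEq ι] {D : Ad M ι}
  {κ : Type} [Fintype κ]

theorem b2ev {z : E n} (hz : z ∈ B2 n) : ∀ᶠ y in 𝓝 z, y ∈ B2 n := isOpen_ball.mem_nhds hz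

theorem inB (b : D.A) {x : M.X} (hx : x ∈ (D.e b).source) : D.e b x ∈ B2 n :=
  D.tgt b ▸ (D.e b).map_source hx

theorem inS (b : D.A) {z : E n} (hz : z ∈ B2 n) : (D.e b).symm z ∈ (D.e b).source :=
  (D.e b).map_target (D.tgt b ▸ hz)

theorem rinv (b : D.A) {z : E n} (hz : z ∈ B2 n) : D.e b ((D.e b).symm z) = z :=
  (D.e b).right_inv (D.tgt b ▸ hz)

theorem dif_ev (hT : St_TRF) {g : D.A → E n → ℂ} {Φ : D.A → M.X → ℂ}
    (h : D.All fun b z => Off (D.c b) z → g b z = D.rd (Φ b) b z) {a b : D.A} {x : M.X}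
    (ha : x ∈ (D.e a).source) (hb : x ∈ (D.e b).source) : ∀ᶠ z in 𝓝 (D.e b x), Off (D.c b) z →
      (D.tr a b (g a) - g b) z = D.rd (Φ a - Φ b) b z := by
  have o := (D.e b).isOpen_inter_preimage_symm (D.e a).open_source
  filter_upwards [o.mem_nhds ⟨(D.e b).map_source hb, by
    rwa [mem_preimage, (D.e b).left_inv hb]⟩] with z hz h0
  have z1 : z ∈ B2 n := D.tgt b ▸ hz.1
  have h1 := ((hT n M ι D).2.2.2 a b _ hz.2 (inS b z1)).2.2.2.1.2 (by rwa [rinv b z1])
  simp only [Pi.sub_apply, Ad.tr, h a _ (inB a hz.2) h1, h b z z1 h0, Ad.rd,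
    (D.e a).left_inv hz.2]

variable (R : Rs D)

/-- The radius. -/
def ρ : ℝ := (R.c0 + 1) / 2

/-- The smaller open sets. -/
def Wr (b : D.A) : Set M.X := {x ∈ (R.B b).W | ‖(R.B b).p x‖ < ρ R}

/-- The orders on the support. -/
abbrev aS : ι → ℤ := fun i => R.a i - sp R.a i

theorem ρ1 : ρ R < 1 := by have := R.c1; unfold ρ; linarith

theorem inW (b : D.A) {z : E n} (hz : z ∈ B2 n) : (D.e b).symm z ∈ Wr R b :=
  ⟨(R.sub b z hz).1, (R.sub b z hz).2.trans_lt (by have := R.c1; unfold ρ; linarith)⟩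

theorem inW' (b : D.A) {x : M.X} (hx : x ∈ (D.e b).source) : x ∈ Wr R b := by
  simpa only [(D.e b).left_inv hx] using inW R b (inB b hx)

theorem aS_le : aS R ≤ fun i => (R.a i : ℤ) := fun i => by
  simp only [aS, sp]; split_ifs <;> omega

/-- The invariant. -/
structure Inv (f : κ → D.A → M.X → ℂ) (q : ι → ℤ) (F : κ → D.A → M.X → ℂ) : Prop where
  s : ∀ l b, D.On (Wr R b) fun d z => PolH (D.c d) (aS R) (D.rd (F l b - f l b) d) z
  q : ∀ l b b', D.On (Wr R b ∩ Wr R b') fun d z => PolH (D.c d) q (D.rd (F l b - F l b') d) z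

variable {R} {f F : κ → D.A → M.X → ℂ}

theorem lv (hM : St_MON) (hD : St_MOD) (hI : St_INC) (hT : St_TRF) (hf : R.Lift f) {t : ℝ}
    (t0 : 0 ≤ t) (t1 : t < 1) (h : Inv R f (Gt R.a R.k R.m t) F) : ∃ L : Lv D (Option κ),
    L.G = Gt R.a R.k R.m t ∧ L.T = Tt R.a R.k R.m t ∧ L.s = t ∧ ∀ l, D.All fun b z =>
      PolH (D.c b) (fun i => R.a i) (D.rd (F l b) b) z ∧
      (Off (D.c b) z → L.f (some l) b z = D.rd (F l b) b z) := by
  have mer : ∀ l, D.All fun b z => PolH (D.c b) (fun i => R.a i) (D.rd (F l b) b) z :=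
    fun l b z hz => pcg hD (padd hD (pmo hI (aS_le R) (h.s l b b z hz (inW R b hz)))
      (hf.mer l b b z hz (inW R b hz).1)) (Eventually.of_forall fun y _ => by simp [Ad.rd])
  choose U hU using fun l b => num hM (mer l b)
  let V : Option κ → D.A → E n → ℂ := fun l b => l.elim (xm (D.c b) fun i => R.a i) (U · b)
  let Φ : Option κ → D.A → M.X → ℂ := fun l b => l.elim 1 (F · b)
  have rep : ∀ l, D.All fun b z => Off (D.c b) z →
      xm (D.c b) (-fun i => (R.a i : ℤ)) z * V l b z = D.rd (Φ l b) b z := by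
    rintro (_ | l) b z hz h0
    · obtain ⟨-, k1, k2⟩ := (hM n ι (D.c b)).2.2.2.2.2.2.2.2.1 (fun i => R.a i) 0 z h0
      exact (congrArg (· * _) k2).trans (inv_mul_cancel₀ k1)
    · exact ((hU l b z hz).2 h0).symm
  have dif : ∀ P : ι → ℤ, (∀ l b b', D.On (Wr R b ∩ Wr R b') fun d z =>
      PolH (D.c d) P (D.rd (F l b - F l b') d) z) → ∀ l, D.Dif (fun b => PolH (D.c b) P)
      fun b z => xm (D.c b) (-fun i => (R.a i : ℤ)) z * V l b z := by
    intro P hP l a b x ha hb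
    refine pcg hD ?_ (dif_ev hT (rep l) ha hb)
    rcases l with _ | l
    · exact p0 hD (Eventually.of_forall fun y _ => by simp [Ad.rd, Φ])
    · refine hP l a b b _ (inB b hb) ?_
      rw [(D.e b).left_inv hb]
      exact ⟨inW' R a ha, inW' R b hb⟩
  refine ⟨{
    a := R.a, k := R.k, m := R.m, w := R.w, G := Gt R.a R.k R.m t, r := rt R.a R.k R.m t
    T := Tt R.a R.k R.m t, s := t, U := V, k0 := none, m0 := R.m0, s0 := t0, s1 := t1
    r0 := rt_bd _ _ _ t
    rT := fun i hi => (Finset.mem_filter.1 hi).2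
    rZ := fun i hi h0 => ?_
    rel := fun i => ?_
    whol := R.whol, wne := R.wne, wcmp := R.wcmp
    Uhol := ?_
    one := fun _ _ => rfl
    gen := fun b z hz => ?_
    difS := dif _ fun l b b' d z hz hw => ?_
    difG := dif _ h.q }, rfl, rfl, rfl, fun l b z hz => ⟨mer l b z hz, rep (some l) b z hz⟩⟩
  · have h1 : R.a i = 0 := by
      by_contra h1
      exact hi (Finset.mem_filter.2 ⟨Finset.mem_univ i, h0, h1⟩)
    exact ⟨h1, nonneg R.m0 t h1 (R.off i h1).1⟩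
  · simp only [rt, Gt]
    split_ifs <;> push_cast <;> ring
  · rintro (_ | l) b z hz
    · exact ((hM n ι (D.c b)).2.2.2.2.2.2.1 R.a z).self_of_nhds
    · exact (hU l b z hz).1
  · by_cases h0 : xm (D.c b) (fun i => R.a i) z = 0
    · obtain ⟨l, s, s1, s2, s3⟩ := hf.gen b z hz h0
      refine ⟨some l, ?_⟩
      rw [show V (some l) b z = s z from agree hM s1.self_of_nhds.continuousAt
        (hU l b z hz).1.continuousAt s3 ((b2ev hz).mono fun y hy => (hU l b y hy).2)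
        (h.s l b b z hz (inW R b hz)) h0]
      exact s2
    · exact ⟨none, h0⟩
  · exact pcg hD (padd hD (psub hD (h.s l b d z hz hw.1) (h.s l b' d z hz hw.2))
      (hf.dif l b b' d z hz ⟨hw.1.1, hw.2.1⟩)) (Eventually.of_forall fun y _ => by
        simp only [Ad.rd, Pi.add_apply, Pi.sub_apply]; ring)

theorem upd (hD : St_MOD) (hE : St_EXC) {t : ℝ} (ht : t ≤ R.s0)
    (h : Inv R f (Gt R.a R.k R.m t) F) {l : κ} {g φ : D.A → E n → ℂ}
    (h1 : D.All fun b z => Off (D.c b) z → φ b z = D.rd (F l b) b z)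
    (h2 : D.All fun d z => PolH (D.c d) (Gt R.a R.k R.m t) (g d - φ d) z) {b : D.A} {F' : M.X → ℂ}
    (h3 : D.On (Wr R b) fun d z => PolH (D.c d) (Gt R.a R.k R.m t) (D.rd F' d - g d) z) :
    D.On (Wr R b) fun d z => PolH (D.c d) (aS R) (D.rd (F' - f l b) d) z := by
  have k := hE n M ι D R.a R.ex (R.B b) (ρ R) (Gt R.a R.k R.m t) (F' - F l b) (ρ1 R).le
    (fun i hi => small R.m0 ht (fun h => (R.top i h).2 hi) fun h => (R.off i h).2 hi)
    fun d z hz hw => pcg hD (padd hD (padd hD (h3 d z hz hw) (h2 d z hz))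
      (h.q l d b d z hz ⟨inW R d hz, hw⟩)) ((b2ev hz).mono fun y hy h0 => by
        have := h1 d y hy h0
        simp only [Ad.rd, Pi.add_apply, Pi.sub_apply] at this ⊢
        rw [this]; ring)
  exact fun d z hz hw => pcg hD (padd hD (k d z hz hw) (h.s l b d z hz hw))
    (Eventually.of_forall fun y _ => by simp [Ad.rd])

theorem glue0 (hT : St_TRF) {g : D.A → E n → ℂ} (h : D.Ov fun a b x =>
    ∀ᶠ y in 𝓝 (D.e b x), Off (D.c b) y → (D.tr a b (g a) - g b) y = 0) :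
    ∃ F : M.X → ℂ, D.All fun d z => Off (D.c d) z → (D.rd F d - g d) z = 0 := by
  have cov : ∀ x, ∃ a, x ∈ (D.e a).source := fun x => by
    obtain ⟨a, -, ha⟩ := Finset.exists_ne_zero_of_sum_ne_zero ((D.sum x).trans_ne one_ne_zero)
    exact ⟨a, (D.supp a x ha).1⟩
  choose α hα using cov
  refine ⟨fun x => g (α x) (D.e (α x) x), fun d z hz h0 => ?_⟩
  have := (h _ d _ (hα _) (inS d hz)).self_of_nhds
  rw [rinv d hz] at this
  exact this h0

end L14

open L14 in
theorem bLOOP (hM : St_MON) (hD : St_MOD) (hI : St_INC) (hT : St_TRF) (hL : St_LEVEL)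
    (hR : St_RV) (hE : St_EXC) : St_SING := by
  intro n M _ H ι _ _ D R κ _ f hH hf l
  obtain ⟨N, N0, hN⟩ := den R.m0 R.a
  have Np : (0 : ℝ) < N := Nat.cast_pos.2 N0
  suffices k : ∀ j : ℕ, (j : ℝ) / N ≤ R.s0 → ∀ F, Inv R f (Gt R.a R.k R.m ((j : ℝ) / N)) F →
      ∃ F : M.X → ℂ, D.All fun b z => PolH (D.c b) (aS R) (D.rd (F - f l b) b) z from
    k ⌊R.s0 * N⌋₊ (by rw [div_le_iff₀ Np]; exact Nat.floor_le (mul_nonneg R.s00 Np.le)) f
      ⟨fun l b d z hz hw => p0 hD (Eventually.of_forall fun y _ => by simp [Ad.rd]),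
        fun l b b' d z hz hw => pmo hI (start R.m0 N0 hN (fun i h => (R.top i h).1)
          fun i h => (R.off i h).1) (hf.dif l b b' d z hz ⟨hw.1.1, hw.2.1⟩)⟩
  intro j
  induction j with
  | zero =>
    intro hj F h
    obtain ⟨L, l1, l2, l3, l4⟩ := lv hM hD hI hT hf (by simp) (hj.trans_lt R.s01) h
    obtain ⟨g, hg⟩ := (hL n M H ι D _ L hH).2 (by simp [l3])
    obtain ⟨F', hF⟩ := glue0 hT (g := g (some l)) fun a b x ha hb =>
      (hI n ι _ _ 0 _ 0 _ _).2.2.2.2.2.2.2.2.2.2.2.1.1 (hg.dif (some l) a b x ha hb)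
    exact ⟨F', fun b z hz => upd hD hE hj h (fun b z hz => (l4 l b z hz).2) (l1 ▸ hg.cor (some l))
      (fun d z hz _ => p0 hD ((b2ev hz).mono (hF d))) b z hz (inW R b hz)⟩
  | succ j ih =>
    intro hj F h
    have t0 : (0 : ℝ) < ((j + 1 : ℕ) : ℝ) / N := by positivity
    obtain ⟨L, l1, l2, l3, l4⟩ := lv hM hD hI hT hf t0.le (hj.trans_lt R.s01) h
    obtain ⟨g, hg⟩ := (hL n M H ι D _ L hH).1
    have c1 := hg.cor
    rw [l1] at c1
    choose F' hF using fun l b => hR n M ι D R b _ (ρ R) (Pt R.a R.k R.m _)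
      (Gt R.a R.k R.m (((j + 1 : ℕ) : ℝ) / N) ⊔ fun i => R.a i) (g (some l)) (ρ1 R)
      (fun _ => rfl) (fun i h1 h2 => by simp [gt_zero h1, h1, h2])
      (fun d z hz => pcg hD (padd hD (pmo hI le_sup_left (c1 (some l) d z hz))
        (pmo hI le_sup_right (l4 l d z hz).1)) ((b2ev hz).mono fun y hy h0 => by
          simp only [Pi.add_apply, Pi.sub_apply, (l4 l d y hy).2 h0, sub_add_cancel]))
      fun a b x ha hb => by
        have := (hI n ι _ _ 0 _ 0 _ _).2.2.2.2.2.2.2.2.2.2.1.1 (hg.dif (some l) a b x ha hb)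
        rwa [l1, l2, pt_eq] at this
    refine ih (le_trans (by gcongr; omega) hj) F' ⟨fun l b => upd hD hE hj h
      (fun b z hz => (l4 l b z hz).2) (c1 (some l)) fun d z hz hw =>
        pmo hI (pt_le _ _ _ _) (hF l b d z hz hw), fun l b b' d z hz hw => ?_⟩
    exact pmo hI (step R.m0 N0 hN j) (pcg hD (psub hD (hF l b d z hz hw.1) (hF l b' d z hz hw.2))
      (Eventually.of_forall fun y _ => by simp [Ad.rd]))

end Pool.Agent.Lib.EXS
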