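import Pool.Agent.Lib.EXS.EXC0
import Pool.Agent.Lib.EX.B_MON

/-! Project ex41, singular case: gluing of local continuous extensions. -/

open scoped Classical Topology ContDiff ComplexOrder Matrix
open Set MeasureTheory Complex Metric Filter

set_option linter.unusedSectionVars false

noncomputable section

namespace Pool.Agent.Lib.EXS

open Pool.Agent.Lib.SV (E)
open Pool.Agent.Lib.HS32 Pool.Agent.Lib.EX

namespace GLU

variable {n : ℕ} {M : Mf n} {ι : Type} [Fintype ι] [DecidableEq ι] {D : Ad M ι} {d : D.A}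
  {x : M.X} {z : E n} {i : ι}

theorem ex_ch (D : Ad M ι) (x : M.X) : ∃ d, x ∈ (D.e d).source := by
  by_contra! h
  have := D.sum x
  rw [Finset.sum_eq_zero fun a _ => by_contra fun k => h a (D.supp a x k).1] at this
  exact zero_ne_one this

theorem mem_B2 (hx : x ∈ (D.e d).source) : D.e d x ∈ B2 n := D.tgt d ▸ (D.e d).map_source hx

theorem mem_tgt (d : D.A) (hz : z ∈ B2 n) : z ∈ (D.e d).target := (D.tgt d).symm ▸ hz

theorem mem_src (d : D.A) (hz : z ∈ B2 n) : (D.e d).symm z ∈ (D.e d).source :=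
  (D.e d).map_target (mem_tgt d hz)

theorem rinv (d : D.A) (hz : z ∈ B2 n) : D.e d ((D.e d).symm z) = z :=
  (D.e d).right_inv (mem_tgt d hz)

theorem rd_e {F : Type} (f : M.X → F) (hx : x ∈ (D.e d).source) : D.rd f d (D.e d x) = f x := by
  rw [Ad.rd, (D.e d).left_inv hx]

theorem xi_iff {b : D.A} (hd : x ∈ (D.e d).source) (hb : x ∈ (D.e b).source) :
    xi (D.c d) i (D.e d x) = 0 ↔ xi (D.c b) i (D.e b x) = 0 := by
  rw [D.urel d b i x hd hb, mul_eq_zero, or_iff_right (D.une d b i x hd hb)]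

theorem mem_off (hx : x ∈ (D.e d).source) : x ∈ off D ↔ Off (D.c d) (D.e d x) :=
  ⟨fun h => h d hx, fun h _ hb i k => h i ((xi_iff hb hx).1 k)⟩

theorem ev_on {O : Set M.X} (hO : IsOpen O) (hz : z ∈ B2 n) (h : (D.e d).symm z ∈ O) :
    ∀ᶠ w in 𝓝 z, w ∈ B2 n ∧ (D.e d).symm w ∈ O :=
  (isOpen_ball.eventually_mem hz).and
    (((D.e d).continuousAt_symm (mem_tgt d hz)).eventually (hO.mem_nhds h))

theorem on_at {O : Set M.X} {p : D.A → E n → Prop} (h : D.On O p) (hx : x ∈ (D.e d).source)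
    (hO : x ∈ O) : p d (D.e d x) :=
  h d _ (mem_B2 hx) (by rwa [(D.e d).left_inv hx])

theorem cont_rd {F : Type} [TopologicalSpace F] {f : M.X → F} (hx : x ∈ (D.e d).source)
    (h : ContinuousAt (D.rd f d) (D.e d x)) : ContinuousAt f x :=
  (ContinuousAt.comp (g := D.rd f d) h ((D.e d).continuousAt hx)).congr
    (((D.e d).eventually_left_inverse hx).mono fun y hy => by simp [Ad.rd, hy])

theorem neBot (D : Ad M ι) (x : M.X) : (𝓝[off D] x).NeBot := by
  obtain ⟨d, hx⟩ := ex_ch D x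
  refine mem_closure_iff_nhdsWithin_neBot.1 (mem_closure_iff_frequently.2
    (((D.e d).tendsto_symm hx).frequently (((MON.off_freq (D.c d) _).and_eventually
      (isOpen_ball.eventually_mem (mem_B2 hx))).mono fun w hw => ?_)))
  rw [mem_off (mem_src d hw.2), rinv d hw.2]
  exact hw.1

end GLU

open GLU in
theorem bGLU : St_GLU := by
  intro n M ι _ _ D F _ _ _ f d g z hz hg h
  filter_upwards [isOpen_ball.eventually_mem hz, hg, h.eventually_nhds] with w w1 w2 w3
  have := neBot D ((D.e d).symm w)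
  have t : Tendsto (D.e d) (𝓝 ((D.e d).symm w)) (𝓝 w) := by
    simpa only [rinv d w1] using ((D.e d).continuousAt (mem_src d w1)).tendsto
  refine Tendsto.limUnder_eq (((w2.tendsto.comp t).mono_left nhdsWithin_le_nhds).congr' ?_)
  filter_upwards [nhdsWithin_le_nhds (t.eventually w3), self_mem_nhdsWithin,
    nhdsWithin_le_nhds ((D.e d).open_source.mem_nhds (mem_src d w1))] with x x1 x2 x3
  rw [Function.comp_apply, ← x1 ((mem_off x3).1 x2), rd_e f x3]

/-- A function without poles extends to a holomorphic function. -/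
theorem glu_hol {n : ℕ} {M : Mf n} {ι : Type} [Fintype ι] [DecidableEq ι] {D : Ad M ι} {d : D.A}
    {f : M.X → ℂ} {z : E n} (hz : z ∈ B2 n) (h : PolH (D.c d) 0 (D.rd f d) z) :
    HolN (D.rd (glu D f) d) z ∧ ∀ᶠ w in 𝓝 z, Off (D.c d) w → D.rd (glu D f) d w = D.rd f d w := by
  obtain ⟨s, hs, e⟩ := h
  have e' : ∀ᶠ w in 𝓝 z, Off (D.c d) w → D.rd f d w = s w :=
    e.mono fun w hw ho => by simpa [xm] using hw ho
  have k := bGLU n M ι D ℂ f d s z hz (hs.mono fun w hw => hw.continuousAt) e'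
  exact ⟨(hs.and k.eventuallyEq_nhds).mono fun w hw => hw.1.congr_of_eventuallyEq hw.2,
    (k.and e').mono fun w hw ho => hw.1.trans (hw.2 ho).symm⟩

end Pool.Agent.Lib.EXS
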