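import Pool.Agent.Lib.HW.Br
import Pool.Agent.Lib.SV.B_FS
import Pool.Agent.Lib.SV.B_SMO
import Pool.Agent.Lib.SV.Ext85

/-! Project ex41, singular case: calculus of Levi forms. -/

open scoped Classical Topology ContDiff ComplexOrder Matrix
open Set MeasureTheory Complex Metric Filter

noncomputable section

namespace Pool.Agent.Lib.EXS.K32

open Pool.Agent.Lib.SV (E nsq levE d2 nsq_nonneg)
open Pool.Agent.Lib.HS32

variable {n : ℕ} {ι : Type} [Fintype ι] {u w : E n → ℝ} {z : E n} {F : E n → ι → ℂ}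
  {f g : E n → ℂ}

/-- The Levi form. -/
def lv (u : E n → ℝ) (z v : E n) : ℝ := nq (hess (fun x => (u x : ℂ)) z) v

theorem lv_eq (h : ContDiffAt ℝ ∞ u z) (v : E n) : lv u z v = levE u z v / 4 := by
  rw [lv, ← HW.levi_eq h, levE, d2, d2, HW.levi]

theorem lv_congr (e : u =ᶠ[𝓝 z] w) (v : E n) : lv u z v = lv w z v := by
  rw [lv, lv, hess_congr (e.mono fun x hx => congrArg ofReal hx)]

theorem lv_add (hu : ContDiffAt ℝ ∞ u z) (hw : ContDiffAt ℝ ∞ w z) (v : E n) :
    lv (fun x => u x + w x) z v = lv u z v + lv w z v := by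
  rw [lv_eq (hu.add hw), lv_eq hu, lv_eq hw, levE, levE, levE, SV.d2_add (cd_le hu 2) (cd_le hw 2),
    SV.d2_add (cd_le hu 2) (cd_le hw 2)]
  ring

theorem lv_mul (hu : ContDiffAt ℝ ∞ u z) (c : ℝ) (v : E n) :
    lv (fun x => c * u x) z v = c * lv u z v := by
  rw [lv_eq (contDiffAt_const.mul hu), lv_eq hu, levE, levE, SV.d2_const_mul (cd_le hu 2),
    SV.d2_const_mul (cd_le hu 2)]
  ring

theorem lv_sub (hu : ContDiffAt ℝ ∞ u z) (hw : ContDiffAt ℝ ∞ w z) (v : E n) :
    lv (fun x => u x - w x) z v = lv u z v - lv w z v := by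
  have := lv_add hu (contDiffAt_const (c := (-1 : ℝ)).mul hw) v
  rw [lv_mul hw] at this
  simpa [sub_eq_add_neg] using this

theorem lv_const (c : ℝ) (v : E n) : lv (fun _ => c) z v = 0 := by
  simp [lv, nq]

theorem lv_sum {κ : Type} {s : Finset κ} {a : κ → E n → ℝ} (h : ∀ i ∈ s, ContDiffAt ℝ ∞ (a i) z)
    (v : E n) : lv (fun x => ∑ i ∈ s, a i x) z v = ∑ i ∈ s, lv (a i) z v := by
  induction s using Finset.induction_on with
  | empty => simpa using lv_const 0 v
  | insert i s hi ih =>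
    have h' := fun j hj => h j (Finset.mem_insert_of_mem hj)
    simp only [Finset.sum_insert hi]
    rw [lv_add (h i (Finset.mem_insert_self _ _)) (ContDiffAt.sum h'), ih h']

theorem lv_inv {c : ℝ} (hu : ContDiffAt ℝ ∞ u z) (hc : u z < c) {v : E n} (h0 : 0 ≤ lv u z v) :
    0 ≤ lv (fun x => (c - u x)⁻¹) z v := by
  have hp := sub_pos.2 hc
  have h1 : ContDiffAt ℝ ∞ (fun x => c - u x) z := contDiffAt_const.sub hu
  have h2 : ContDiffAt ℝ 2 (fun t : ℝ => t⁻¹) (c - u z) := contDiffAt_inv ℝ hp.ne'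
  have h3 : lv (fun x => c - u x) z v ≤ 0 := by
    rw [lv_sub contDiffAt_const hu, lv_const]; linarith
  rw [lv_eq h1, levE] at h3
  have h4 : ContDiffAt ℝ ∞ (fun x => (c - u x)⁻¹) z := h1.inv hp.ne'
  rw [lv_eq h4, levE, SV.d2_comp (cd_le h1 2) h2, SV.d2_comp (cd_le h1 2) h2,
    deriv_inv']
  have e : deriv (fun x : ℝ => -(x ^ 2)⁻¹) (c - u z) = 2 / (c - u z) ^ 3 := by
    have := (((hasDerivAt_pow 2 (c - u z)).inv (pow_pos hp 2).ne').neg).deriv
    refine this.trans ?_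
    field_simp
    norm_num [mul_comm]
  rw [e]
  dsimp only
  have a1 : 0 ≤ 2 / (c - u z) ^ 3 := by positivity
  have a2 : 0 ≤ ((c - u z) ^ 2)⁻¹ := by positivity
  nlinarith [mul_nonneg a1 (sq_nonneg (fderiv ℝ (fun x => c - u x) z v)),
    mul_nonneg a1 (sq_nonneg (fderiv ℝ (fun x => c - u x) z (I • v))),
    mul_nonneg a2 (neg_nonneg.2 h3)]

theorem hol_apply (h : HolN F z) (i : ι) : HolN (fun w => F w i) z :=
  h.mono fun _ hw => differentiableAt_pi.1 hw i

theorem hol_cd (h : HolN f z) : ContDiffAt ℝ ∞ f z := ((mHOL n f z).2.2 h).1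

theorem cd_normSq (h : ContDiffAt ℝ ∞ f z) : ContDiffAt ℝ ∞ (fun w => normSq (f w)) z := by
  simpa only [Complex.star_def, Complex.mul_conj, ofReal_re] using cd_re (h.mul (cd_star h))

theorem cd_nsq (h : HolN F z) : ContDiffAt ℝ ∞ (fun w => nsq (F w)) z :=
  ContDiffAt.sum fun i _ => cd_normSq (hol_cd (hol_apply h i))

theorem lv_nsq (h : HolN F z) (v : E n) :
    lv (fun w => nsq (F w)) z v = nsq (fderiv ℂ F z v) := by
  have h2 : ContDiffAt ℂ 2 F z := SV.H85.contDiffAt_nat h 2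
  have a := SV.FS.dd2 h2 0
  simp only [add_zero] at a
  have e2 : fderiv ℂ (fderiv ℂ F) z (I • v) (I • v) = -fderiv ℂ (fderiv ℂ F) z v v := by
    rw [map_smul, map_smul, _root_.smul_apply, smul_smul, I_mul_I, neg_one_smul]
  have e3 : nsq (fderiv ℂ F z (I • v)) = nsq (fderiv ℂ F z v) := by simp [nsq]
  rw [lv_eq (cd_nsq h), levE, a, a, e2, e3]
  simp only [Pi.neg_apply, neg_mul, Finset.sum_neg_distrib, neg_re]
  ring

theorem lv_normSq (h : HolN f z) (v : E n) : 0 ≤ lv (fun w => normSq (f w)) z v := by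
  have h1 : HolN (fun w (_ : Unit) => f w) z := h.mono fun w hw => differentiableAt_pi.2 fun _ => hw
  have := lv_nsq h1 v
  simp only [nsq, Finset.univ_unique, Finset.sum_singleton] at this
  rw [this]
  exact normSq_nonneg _

theorem nsq_pos {v : ι → ℂ} (h : v ≠ 0) : 0 < nsq v := by
  obtain ⟨i, hi⟩ := Function.ne_iff.1 h
  exact (normSq_pos.2 hi).trans_le
    (Finset.single_le_sum (f := fun i => normSq (v i)) (fun _ _ => normSq_nonneg _)
      (Finset.mem_univ i))

theorem cs_lt {a b : ι → ℂ} (ha : a ≠ 0) (h : ∀ t : ℂ, b ≠ t • a) :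
    normSq (∑ i, b i * star (a i)) < nsq a * nsq b := by
  have h0 := nsq_pos ha
  set s := ∑ i, b i * star (a i) with hs
  have h1 := nsq_pos (sub_ne_zero.2 (h (s / (nsq a : ℝ))))
  have e : nsq (b - (s / (nsq a : ℝ)) • a) = nsq b - normSq s / nsq a := by
    have e1 : ∀ t : ℂ, nsq (b - t • a) = nsq b + normSq t * nsq a - 2 * (star t * s).re := by
      intro t
      simp only [nsq, hs, Finset.mul_sum, re_sum, ← Finset.sum_add_distrib,
        ← Finset.sum_sub_distrib, Pi.sub_apply, Pi.smul_apply, smul_eq_mul, normSq_sub, map_mul]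
      refine Finset.sum_congr rfl fun i _ => ?_
      rw [star_def, mul_left_comm]
    have e2 : (star (s / (nsq a : ℝ)) * s).re = normSq s / nsq a := by
      rw [star_div₀, star_def, conj_ofReal, div_mul_eq_mul_div, ← normSq_eq_conj_mul_self,
        ← ofReal_div, ofReal_re]
    rw [e1, e2, map_div₀, normSq_ofReal]
    field_simp
    ring
  rw [e, sub_pos, div_lt_iff₀ h0] at h1
  linarith

theorem lv_lg (h : HolN F z) (h0 : F z ≠ 0) :
    ContDiffAt ℝ ∞ (fun w => Real.log (nsq (F w))) z ∧ ∀ v,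
      0 ≤ lv (fun w => Real.log (nsq (F w))) z v ∧
      ((∀ t : ℂ, fderiv ℂ F z v ≠ t • F z) → 0 < lv (fun w => Real.log (nsq (F w))) z v) := by
  have h1 := (cd_nsq h).log (nsq_pos h0).ne'
  have h2 := (SV.stFS SV.stSMO n ι F z 0 le_rfl h (by simpa using nsq_pos h0)).2
  simp only [add_zero] at h2
  refine ⟨h1, fun v => ⟨?_, fun ht => ?_⟩⟩
  · rw [lv_eq h1]
    exact div_nonneg (h2 v).2 (by norm_num)
  · rw [lv_eq h1, (h2 v).1]
    have := cs_lt h0 ht
    exact div_pos (div_pos (mul_pos (by norm_num) (sub_pos.2 this)) (pow_pos (nsq_pos h0) 2))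
      (by norm_num)

theorem lv_log (h : HolN f z) (h0 : f z ≠ 0) :
    ContDiffAt ℝ ∞ (fun w => Real.log (normSq (f w))) z ∧
      ∀ v, lv (fun w => Real.log (normSq (f w))) z v = 0 := by
  obtain ⟨a, b, -⟩ := ((mHOL n f z).2.2 h).2.2.2 h0
  exact ⟨a, fun v => by simp [lv, b, nq]⟩

theorem pd_of_lv (hu : ContDiffAt ℝ ∞ u z) (h : ∀ v, v ≠ 0 → 0 < lv u z v) :
    (hess (fun x => (u x : ℂ)) z).PosDef := by
  have hh := hess_herm hu
  exact Matrix.PosDef.of_dotProduct_mulVec_pos hh fun v hv =>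
    Complex.pos_iff.2 ⟨h v hv, (hh.im_star_dotProduct_mulVec_self v).symm⟩

theorem psd_of_lv (hu : ContDiffAt ℝ ∞ u z) (h : ∀ v, 0 ≤ lv u z v) :
    (hess (fun x => (u x : ℂ)) z).PosSemidef := by
  have hh := hess_herm hu
  exact .of_dotProduct_mulVec_nonneg hh fun v =>
    Complex.nonneg_iff.2 ⟨h v, (hh.im_star_dotProduct_mulVec_self v).symm⟩

theorem nq_sm (A : Mat n) (r : ℝ) (v : E n) : nq A (r • v) = r ^ 2 * nq A v := by
  simp only [nq, Matrix.mulVec_smul, star_smul, star_trivial, smul_dotProduct, dotProduct_smul,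
    real_smul, re_ofReal_mul, sq]
  ring

/-- A positive Levi form is uniformly positive in a neighbourhood. -/
theorem lv_near (hu : ContDiffAt ℝ ∞ u z) (h : ∀ v, v ≠ 0 → 0 < lv u z v) :
    ∃ c, 0 < c ∧ ∀ᶠ x in 𝓝 z, ∀ v, c * ‖v‖ ^ 2 ≤ lv u x v := by
  have hc : ∀ v, ContinuousAt (fun p : E n × E n => lv u p.1 p.2) (z, v) := fun v => by
    have h1 : ContinuousAt (fun p : E n × E n => hess (fun x => (u x : ℂ)) p.1) (z, v) :=
      ContinuousAt.comp (x := (z, v)) (f := Prod.fst) (smM_hess (cd_ofReal hu)).continuousAt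
        continuousAt_fst
    have h2 : Continuous fun p : Mat n × E n => nq p.1 p.2 := by
      unfold nq
      fun_prop
    exact h2.continuousAt.comp (h1.prodMk continuousAt_snd)
  have hS := isCompact_sphere (0 : E n) 1
  obtain ⟨c, c0, hc0⟩ : ∃ c, 0 < c ∧ ∀ v ∈ sphere (0 : E n) 1, c < lv u z v := by
    rcases (sphere (0 : E n) 1).eq_empty_or_nonempty with e | e
    · exact ⟨1, one_pos, by simp [e]⟩
    obtain ⟨v, hv, hm⟩ := hS.exists_isMinOn e (f := fun v => lv u z v) fun v _ =>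
      ((hc v).comp (f := fun v => (z, v)) (by fun_prop)).continuousWithinAt
    have := h v (ne_of_mem_sphere hv one_ne_zero)
    exact ⟨lv u z v / 2, half_pos this, fun w hw => (half_lt_self this).trans_le (hm hw)⟩
  refine ⟨c, c0, (hS.eventually_forall_of_forall_eventually (P := fun x v => c < lv u x v)
    fun v hv => (hc v).eventually (lt_mem_nhds (hc0 v hv))).mono fun x hx v => ?_⟩
  rcases eq_or_ne v 0 with rfl | hv
  · simp [lv, nq]
  have h1 := norm_pos_iff.2 hv
  have h2 := hx (‖v‖⁻¹ • v) (by simp [norm_smul, h1.ne'])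
  rw [lv, nq_sm, ← lv, inv_pow, lt_inv_mul_iff₀ (pow_pos h1 2)] at h2
  linarith

end Pool.Agent.Lib.EXS.K32
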