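import Pool.Agent.Lib.EXS.B_GLU
import Pool.Agent.Lib.EXS.K32
import Pool.Agent.Lib.EX63.Max

/-! Project ex41, singular case: poles along exceptional components drop. -/

open scoped Classical Topology ContDiff ComplexOrder Matrix
open Set MeasureTheory Complex Metric Filter

set_option linter.unusedSectionVars false

noncomputable section

namespace Pool.Agent.Lib.EXS

open Pool.Agent.Lib.SV (E nsq nsq_nonneg)
open Pool.Agent.Lib.HS32 Pool.Agent.Lib.EX

namespace EXC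

open GLU K32

variable {n : ℕ} {M : Mf n} {ι : Type} [Fintype ι] [DecidableEq ι] {D : Ad M ι} {d : D.A}
  {x : M.X} {z : E n} {i : ι} {a : ι → ℕ} {ex : Set ι} {ρ : ℝ} {c : ι → Option (Fin n)}

/-- The component `i` of the divisor. -/
def dv (D : Ad M ι) (i : ι) : Set M.X :=
  {x | ∀ d, x ∈ (D.e d).source → xi (D.c d) i (D.e d x) = 0}

theorem mem_dv (hx : x ∈ (D.e d).source) : x ∈ dv D i ↔ xi (D.c d) i (D.e d x) = 0 :=
  ⟨fun h => h d hx, fun h _ hb => (xi_iff hb hx).2 h⟩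

theorem dv_closed (D : Ad M ι) (i : ι) : IsClosed (dv D i) := by
  refine isClosed_iff_frequently.2 fun x hx d hd => by_contra fun h => ?_
  have h1 := (((MON.diff_xi (D.c d) i).continuous.continuousAt.comp
    ((D.e d).continuousAt hd)).eventually_ne h).and ((D.e d).open_source.mem_nhds hd)
  obtain ⟨y, y1, y2⟩ := (hx.and_eventually h1).exists
  exact y2.1 (y1 d y2.2)

theorem p_cont (B : Bl D a ex) (hx : x ∈ B.W) : ContinuousAt B.p x := by
  obtain ⟨d, hd⟩ := ex_ch D x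
  exact cont_rd hd (on_at B.phol hd hx).self_of_nhds.continuousAt

theorem W_open (B : Bl D a ex) (ρ : ℝ) : IsOpen {x ∈ B.W | ‖B.p x‖ < ρ} :=
  isOpen_iff_mem_nhds.2 fun _ hx => (B.opn.eventually_mem hx.1).and
    ((p_cont B hx.1).norm.eventually (gt_mem_nhds hx.2))

theorem sq_le_nsq {N : ℕ} {v : E N} {ε : ℝ} (h0 : 0 < ε) (h : ε ≤ ‖v‖) : ε ^ 2 ≤ nsq v := by
  by_contra! k
  refine h.not_gt ((pi_norm_lt_iff h0).2 fun j => ?_)
  have := (Finset.single_le_sum (f := fun j => normSq (v j)) (fun _ _ => normSq_nonneg _)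
    (Finset.mem_univ j)).trans_lt k
  rw [normSq_eq_norm_sq] at this
  exact lt_of_pow_lt_pow_left₀ 2 h0.le this

/-- The maximum principle with a penalty. -/
theorem vanish (B : Bl D a ex) (hρ : ρ ≤ 1) {N : M.X → ℝ}
    (hc : ∀ x ∈ {x ∈ B.W | ‖B.p x‖ < ρ}, ContinuousAt N x ∧ 0 ≤ N x)
    (hN : D.On {x ∈ B.W | ‖B.p x‖ < ρ} fun d z => ∀ j, D.c d i = some j → z j = 0 →
      D.rd N d z ≠ 0 → ∃ g, ContDiffAt ℝ ∞ g z ∧ (∀ᶠ w in 𝓝 z, D.rd N d w = Real.exp (g w)) ∧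
        ∃ v, v j = 0 ∧ fderiv ℂ (D.rd B.p d) z v = 0 ∧ 0 < lv g z v)
    {y : M.X} (hy : y ∈ {x ∈ B.W | ‖B.p x‖ < ρ}) (hi : y ∈ dv D i) : N y = 0 := by
  by_contra h0
  have N0 : 0 < N y := (hc y hy).2.lt_of_ne' h0
  obtain ⟨ρ', r1, r2⟩ := exists_between hy.2
  have hK := (B.cpt ρ' (r2.trans_le hρ)).inter_right (dv_closed D i)
  have sub : ∀ x ∈ {x ∈ B.W | ‖B.p x‖ ≤ ρ'} ∩ dv D i, x ∈ {x ∈ B.W | ‖B.p x‖ < ρ} :=
    fun x hx => ⟨hx.1.1, hx.1.2.trans_lt r2⟩
  have hy' : y ∈ {x ∈ B.W | ‖B.p x‖ ≤ ρ'} ∩ dv D i := ⟨⟨hy.1, r1.le⟩, hi⟩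
  obtain ⟨C, hC⟩ := hK.bddAbove_image fun x hx => (hc x (sub x hx)).1.continuousWithinAt
  have e0 := sub_pos.2 r1
  obtain ⟨A, A0, hA⟩ : ∃ A : ℝ, 0 ≤ A ∧ C * Real.exp (-(A * (ρ' - ‖B.p y‖) ^ 2)) < N y := by
    have t : Tendsto (fun A : ℝ => C * Real.exp (-(A * (ρ' - ‖B.p y‖) ^ 2))) atTop (𝓝 (C * 0)) :=
      (Real.tendsto_exp_neg_atTop_nhds_zero.comp
        (tendsto_id.atTop_mul_const (pow_pos e0 2))).const_mul C
    rw [mul_zero] at t
    exact ((eventually_ge_atTop 0).and (t.eventually (gt_mem_nhds N0))).exists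
  have cn : Continuous fun v : E B.N => Real.exp (-(A * nsq (v - B.p y))) := by
    unfold nsq
    fun_prop
  obtain ⟨x, hx, hm⟩ := hK.exists_isMaxOn ⟨y, hy'⟩
    (f := fun x => N x * Real.exp (-(A * nsq (B.p x - B.p y)))) fun x hx =>
      ((hc x (sub x hx)).1.mul (cn.continuousAt.comp (p_cont B hx.1.1))).continuousWithinAt
  have m1 : N y ≤ N x * Real.exp (-(A * nsq (B.p x - B.p y))) := by simpa [nsq] using hm hy'
  have m2 : N x ≠ 0 := fun k => by
    rw [k, zero_mul] at m1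
    exact m1.not_gt N0
  have m3 : ‖B.p x‖ < ρ' := by
    by_contra! k
    have k1 : ρ' - ‖B.p y‖ ≤ ‖B.p x - B.p y‖ := by linarith [norm_sub_norm_le (B.p x) (B.p y)]
    have k2 := hC (mem_image_of_mem N hx)
    refine (m1.trans ?_).not_gt hA
    exact mul_le_mul k2 (Real.exp_le_exp.2 (neg_le_neg
      (mul_le_mul_of_nonneg_left (sq_le_nsq e0 k1) A0))) (Real.exp_pos _).le
        ((hc x (sub x hx)).2.trans k2)
  obtain ⟨d, hd⟩ := ex_ch D x
  have x0 := (mem_dv hd).1 hx.2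
  rcases MON.xi_cases (D.c d) i with ⟨-, e⟩ | ⟨j, hj, e⟩
  · simp [e] at x0
  rw [e] at x0
  obtain ⟨g, g1, g2, v, v1, v2, v3⟩ := on_at hN hd (sub x hx) j hj x0 (by rwa [rd_e N hd])
  have ph : HolN (fun w => D.rd B.p d w - B.p y) (D.e d x) :=
    (on_at B.phol hd hx.1.1).mono fun w hw => hw.sub_const _
  have s1 := contDiffAt_const (c := A).mul (cd_nsq ph)
  have k := EX63.max_plane (j := j) (g1.sub s1) v1 (by
    filter_upwards [g2, ev_on (W_open B ρ') (mem_B2 hd)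
      (by rw [(D.e d).left_inv hd]; exact ⟨hx.1.1, m3⟩)] with w w1 w2 w3
    have w4 := hm (a := (D.e d).symm w) ⟨⟨w2.2.1, w2.2.2.le⟩, by
      rw [mem_dv (mem_src d w2.1), rinv d w2.1, e]
      exact w3.trans x0⟩
    have w5 := g2.self_of_nhds
    rw [rd_e N hd] at w5
    rw [← Real.exp_le_exp, rd_e B.p hd, sub_eq_add_neg, sub_eq_add_neg (g _), Real.exp_add,
      Real.exp_add, ← w1, ← w5]
    exact w4)
  change lv _ _ v ≤ 0 at k
  rw [lv_sub g1 s1, lv_mul (cd_nsq ph), lv_nsq ph, fderiv_sub_const, v2] at k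
  simp [nsq] at k
  exact k.not_gt v3

theorem nsq_xm (z : E n) (G : ι → ℤ) (s : ℝ) :
    normSq (xm c G z) ^ s = xr c (fun i => s * G i) z := by
  rw [xm, map_prod, ← Real.finsetProd_rpow _ _ fun i _ => normSq_nonneg _]
  refine Finset.prod_congr rfl fun i _ => ?_
  rw [map_zpow₀, ← Real.rpow_intCast, ← Real.rpow_mul (normSq_nonneg _), mul_comm]

theorem xr_add (h : Off c z) (r s : ι → ℝ) :
    xr c r z * xr c s z = xr c (fun i => r i + s i) z := by
  rw [xr, xr, ← Finset.prod_mul_distrib]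
  exact Finset.prod_congr rfl fun i _ => (Real.rpow_add (normSq_pos.2 (h i)) _ _).symm

theorem xr_log {r : ι → ℝ} (h : xr c r z ≠ 0) :
    ContDiffAt ℝ ∞ (fun w => ∑ i, r i * Real.log (normSq (xi c i w))) z ∧
    (∀ v, lv (fun w => ∑ i, r i * Real.log (normSq (xi c i w))) z v = 0) ∧
    ∀ᶠ w in 𝓝 z, xr c r w = Real.exp (∑ i, r i * Real.log (normSq (xi c i w))) := by
  have k : ∀ i, ContDiffAt ℝ ∞ (fun w => r i * Real.log (normSq (xi c i w))) z ∧
      (∀ v, lv (fun w => r i * Real.log (normSq (xi c i w))) z v = 0) ∧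
      ∀ᶠ w in 𝓝 z, normSq (xi c i w) ^ r i = Real.exp (r i * Real.log (normSq (xi c i w))) := by
    intro i
    by_cases h0 : r i = 0
    · simp [h0, lv_const, contDiffAt_const]
    have h1 : xi c i z ≠ 0 := fun e =>
      h (Finset.prod_eq_zero (Finset.mem_univ i) (by simp [e, h0]))
    obtain ⟨b1, b2⟩ := lv_log (.of_forall (MON.diff_xi c i)) h1
    refine ⟨contDiffAt_const.mul b1, fun v => by rw [lv_mul b1, b2, mul_zero], ?_⟩
    filter_upwards [(MON.diff_xi c i).continuous.continuousAt.eventually_ne h1] with w hw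
    rw [Real.rpow_def_of_pos (normSq_pos.2 hw), mul_comm]
  refine ⟨ContDiffAt.sum fun i _ => (k i).1, fun v => ?_, ?_⟩
  · rw [lv_sum fun i _ => (k i).1]
    exact Finset.sum_eq_zero fun i _ => (k i).2.1 v
  · filter_upwards [eventually_all.2 fun i => (k i).2.2] with w hw
    rw [Real.exp_sum]
    exact Finset.prod_congr rfl fun i _ => hw i

/-- One step. -/
theorem step (B : Bl D a ex) (hρ : ρ ≤ 1) {q : ι → ℤ} {H : M.X → ℂ} {θ r : ℝ} (hi : i ∈ ex)
    (θ0 : 0 ≤ θ) (r0 : 0 < r) (he : ∀ l, 0 ≤ -(q l : ℝ) + θ * a l + r * B.e l)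
    (h0 : -(q i : ℝ) + θ * a i + r * B.e i = 0)
    (hH : D.On {x ∈ B.W | ‖B.p x‖ < ρ} fun d z => PolH (D.c d) q (D.rd H d) z) :
    D.On {x ∈ B.W | ‖B.p x‖ < ρ} fun d z => PolH (D.c d) (q - Pi.single i 1) (D.rd H d) z := by
  set N := glu D fun x => normSq (H x) * normSq (B.σ x) ^ θ * nsq (B.τ x) ^ r
  have key : D.On {x ∈ B.W | ‖B.p x‖ < ρ} fun d z => ∃ s, HolN s z ∧
      (∀ᶠ w in 𝓝 z, Off (D.c d) w → D.rd H d w = xm (D.c d) (-q) w * s w) ∧
      ContinuousAt (D.rd N d) z ∧ ∀ᶠ w in 𝓝 z, B.v d w ≠ 0 ∧ B.t d w ≠ 0 ∧ D.rd N d w =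
        normSq (s w) * normSq (B.v d w) ^ θ * nsq (B.t d w) ^ r *
          xr (D.c d) (fun l => -(q l : ℝ) + θ * a l + r * B.e l) w := fun d z hz ho => by
    obtain ⟨s, hs, e⟩ := hH d z hz ho
    have ev := ev_on B.opn hz ho.1
    have c1 : ∀ᶠ w in 𝓝 z, ContinuousAt (fun w => normSq (s w) * normSq (B.v d w) ^ θ *
        nsq (B.t d w) ^ r * xr (D.c d) (fun l => -(q l : ℝ) + θ * a l + r * B.e l) w) w := by
      filter_upwards [hs, ev] with w w1 w2
      exact (((continuous_normSq.continuousAt.comp w1.continuousAt).mul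
        ((cd_normSq (hol_cd (B.vhol d w w2.1 w2.2).1)).continuousAt.rpow_const (.inr θ0))).mul
        ((cd_nsq (B.thol d w w2.1 w2.2).1).continuousAt.rpow_const (.inr r0.le))).mul
        (continuous_finsetProd _ fun l _ =>
          (MON.cd_nsq (D.c d) l).continuous.rpow_const fun _ => .inr (he l)).continuousAt
    have k := bGLU n M ι D ℝ (fun x => normSq (H x) * normSq (B.σ x) ^ θ * nsq (B.τ x) ^ r) d _ z
      hz c1 (by
        filter_upwards [e, ev] with w w1 w2 w3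
        change normSq (D.rd H d w) * normSq (D.rd B.σ d w) ^ θ * nsq (D.rd B.τ d w) ^ r = _
        have e1 : ∀ (t : ℂ) (u : E B.r), nsq (t • u) = normSq t * nsq u := fun t u => by
          simp [nsq, Finset.mul_sum]
        rw [w1 w3, (B.vhol d w w2.1 w2.2).2.2, (B.thol d w w2.1 w2.2).2.2, e1, map_mul, map_mul,
          Real.mul_rpow (normSq_nonneg _) (normSq_nonneg _),
          Real.mul_rpow (normSq_nonneg _) (nsq_nonneg _), ← Real.rpow_one (normSq (xm _ (-q) w)),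
          nsq_xm, nsq_xm, nsq_xm, ← xr_add w3, ← xr_add w3]
        simp only [one_mul, Pi.neg_apply, Int.cast_neg, Int.cast_natCast]
        ring)
    exact ⟨s, hs, e, c1.self_of_nhds.congr k.symm, (ev.and k).mono fun w hw =>
      ⟨(B.vhol d w hw.1.1 hw.1.2).2.1, (B.thol d w hw.1.1 hw.1.2).2.1, hw.2⟩⟩
  have van := fun y => vanish (i := i) (N := N) (y := y) B hρ (fun x hx => by
    obtain ⟨d, hd⟩ := ex_ch D x
    obtain ⟨s, -, -, h1, h2⟩ := on_at key hd hx
    refine ⟨cont_rd hd h1, ?_⟩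
    rw [← rd_e N hd, h2.self_of_nhds.2.2]
    exact mul_nonneg (mul_nonneg (mul_nonneg (normSq_nonneg _) (Real.rpow_nonneg (normSq_nonneg _) _))
      (Real.rpow_nonneg (nsq_nonneg _) _))
      (Finset.prod_nonneg fun l _ => Real.rpow_nonneg (normSq_nonneg _) _)) fun d z hz ho j hj zj hn => by
    obtain ⟨s, hs, -, -, h2⟩ := key d z hz ho
    obtain ⟨b1, b2, b3⟩ := h2.self_of_nhds
    rw [b3] at hn
    have s0 : s z ≠ 0 := fun k => hn (by simp [k])
    obtain ⟨l1, l2⟩ := lv_log hs s0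
    obtain ⟨l3, l4⟩ := lv_log (B.vhol d z hz ho.1).1 b1
    obtain ⟨l5, l6⟩ := lv_lg (B.thol d z hz ho.1).1 b2
    obtain ⟨l7, l8, l9⟩ := xr_log (right_ne_zero_of_mul hn)
    obtain ⟨v, v0, v1, v2⟩ := B.exc d z hz ho.1 i hi j hj zj
    have l3' := contDiffAt_const (c := θ).mul l3
    have l5' := contDiffAt_const (c := r).mul l5
    refine ⟨_, ((l1.add l3').add l5').add l7, ?_, v, v1, v2, ?_⟩
    · filter_upwards [h2, l9, hs.self_of_nhds.continuousAt.eventually_ne s0] with w w1 w2 w3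
      rw [w1.2.2, w2, Real.exp_add, Real.exp_add, Real.exp_add, Real.exp_log (normSq_pos.2 w3),
        Real.rpow_def_of_pos (normSq_pos.2 w1.1), Real.rpow_def_of_pos (nsq_pos w1.2.1),
        mul_comm θ, mul_comm r]
    · rw [lv_add ((l1.add l3').add l5') l7, lv_add (l1.add l3') l5', lv_add l1 l3', lv_mul l3,
        lv_mul l5, l2, l4, l8]
      simpa using mul_pos r0 ((l6 v).2 fun t ht => v0 (B.imm d z hz ho.1 v t v2 ht))
  intro d z hz ho
  obtain ⟨s, hs, e, -, h2⟩ := key d z hz ho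
  have fin : ∀ g, HolN g z → (∀ᶠ w in 𝓝 z, s w = xi (D.c d) i w * g w) →
      PolH (D.c d) (q - Pi.single i 1) (D.rd H d) z := fun g g1 g2 => ⟨g, g1, by
    filter_upwards [e, g2] with w w1 w2 w3
    rw [w1 w3, w2, neg_sub, sub_eq_neg_add, MON.xm_add _ _ w3, mul_assoc]
    simp [xm, Pi.single_apply, apply_ite]⟩
  rcases MON.xi_cases (D.c d) i with ⟨-, e1⟩ | ⟨j, hj, e1⟩
  · exact fin s hs (by simp [e1])
  obtain ⟨g, g1, g2⟩ := K68.div_prod_germ (I := {j}) hs (by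
    filter_upwards [hs, (h2.and (ev_on (W_open B ρ) hz ho)).eventually_nhds] with w w1 w2 l hl w3
    rw [Finset.mem_singleton.1 hl] at w3
    refine MON.sl_dense (I := {i}) (D.inj d) (by simpa [Sl, e1] using w3) w1.continuousAt
      (w2.mono fun y hy y1 y2 => ?_)
    have y3 := y1 i (Finset.mem_singleton_self i)
    have y4 := van _ hy.2.2 (by rwa [mem_dv (mem_src d hy.2.1), rinv d hy.2.1])
    have y5 := y4.symm.trans hy.1.2.2
    have y6 : 0 < xr (D.c d) (fun l => -(q l : ℝ) + θ * a l + r * B.e l) y :=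
      Finset.prod_pos fun l _ => by
        by_cases hl : l = i
        · simp only [hl, h0, Real.rpow_zero, one_pos]
        · exact Real.rpow_pos_of_pos (normSq_pos.2 (y2 l (by simpa using hl))) _
    by_contra k
    exact y5.not_lt (mul_pos (mul_pos (mul_pos (normSq_pos.2 k)
      (Real.rpow_pos_of_pos (normSq_pos.2 hy.1.1) _))
      (Real.rpow_pos_of_pos (nsq_pos hy.1.2.1) _)) y6))
  exact fin g g1 (by simpa [e1] using g2)

theorem theta (a : ι → ℕ) : ∃ θ : ℝ, 0 ≤ θ ∧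
    ∀ i, ((a i - sp a i : ℤ) : ℝ) ≤ θ * a i ∧ θ * a i < (a i - sp a i : ℤ) + 1 := by
  have h0 : (0 : ℝ) ≤ ∑ i, (a i : ℝ) := Finset.sum_nonneg fun i _ => Nat.cast_nonneg _
  have h1 : 0 < (1 + ∑ i, (a i : ℝ))⁻¹ := by positivity
  refine ⟨1 - (1 + ∑ i, (a i : ℝ))⁻¹, sub_nonneg.2 (inv_le_one_of_one_le₀ (by linarith)),
    fun i => ?_⟩
  by_cases h : a i = 0
  · simp [sp, h]
  have h2 := Finset.single_le_sum (f := fun i => (a i : ℝ)) (fun i _ => Nat.cast_nonneg _)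
    (Finset.mem_univ i)
  have h3 : (1 + ∑ i, (a i : ℝ))⁻¹ * a i ≤ 1 := by
    rw [inv_mul_le_iff₀ (by linarith)]
    linarith
  have h4 := mul_pos h1 (Nat.cast_pos.2 (Nat.pos_of_ne_zero h) : (0 : ℝ) < a i)
  simp only [sp, h, if_false, Int.cast_sub, Int.cast_natCast, Int.cast_one]
  constructor <;> linarith

/-- The poles drop to the minimum of the two bounds. -/
theorem exc_min (B : Bl D a ex) (hρ : ρ ≤ 1) {H : M.X → ℂ} (q : ι → ℤ)
    (hq : ∀ i ∉ ex, q i ≤ a i - sp a i)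
    (hH : D.On {x ∈ B.W | ‖B.p x‖ < ρ} fun d z => PolH (D.c d) q (D.rd H d) z) :
    D.On {x ∈ B.W | ‖B.p x‖ < ρ} fun d z =>
      PolH (D.c d) (fun i => min (q i) (a i - sp a i)) (D.rd H d) z := by
  obtain ⟨θ, θ0, hθ⟩ := theta a
  induction hm : ∑ i, (q i - (a i - sp a i)).toNat using Nat.strong_induction_on generalizing q with
  | _ m ih =>
  by_cases h : ∀ i, q i ≤ a i - sp a i
  · simpa only [fun i => min_eq_left (h i)] using hH
  obtain ⟨l, hl⟩ := not_forall.1 h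
  have l1 : l ∈ ex := by_contra fun k => hl (hq l k)
  obtain ⟨i, hi, hx⟩ := ex.toFinite.exists_maximalFor (fun i => (q i - θ * a i) / B.e i) _ ⟨l, l1⟩
  have hx' : ∀ j ∈ ex, (q j - θ * a j) / B.e j ≤ (q i - θ * a i) / B.e i := fun j hj =>
    (le_total _ _).elim id (hx hj)
  have ep : ∀ j ∈ ex, (0 : ℝ) < B.e j := fun j hj => Nat.cast_pos.2 (B.epos j hj)
  have r0 : 0 < (q i - θ * a i) / B.e i := by
    have h1 : ((a l - sp a l : ℤ) : ℝ) + 1 ≤ q l := by exact_mod_cast not_le.1 hl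
    exact (div_pos (by linarith [(hθ l).2]) (ep l l1)).trans_le (hx' l l1)
  have qi : a i - sp a i < q i := by
    have := (div_pos_iff_of_pos_right (ep i hi)).1 r0
    exact_mod_cast (hθ i).1.trans_lt (sub_pos.1 this)
  have k := step B hρ hi θ0 r0 (fun j => by
    by_cases hj : j ∈ ex
    · linarith [(div_le_iff₀ (ep j hj)).1 (hx' j hj)]
    · have h1 : (q j : ℝ) ≤ (a j - sp a j : ℤ) := by exact_mod_cast hq j hj
      linarith [(hθ j).1, mul_nonneg r0.le (Nat.cast_nonneg (α := ℝ) (B.e j))])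
    (by rw [div_mul_cancel₀ _ (ep i hi).ne']; ring) hH
  have e : (fun j => min ((q - Pi.single i 1 : ι → ℤ) j) (a j - sp a j)) =
      fun j => min (q j) (a j - sp a j) := funext fun j => by
    rw [Pi.sub_apply, Pi.single_apply]
    split_ifs with hj
    · subst hj
      omega
    · rw [sub_zero]
  rw [← e]
  refine ih _ (lt_of_lt_of_eq (Finset.sum_lt_sum (fun j _ => ?_) ⟨i, Finset.mem_univ i, ?_⟩) hm) _
    (fun j hj => by
      rw [Pi.sub_apply, Pi.single_eq_of_ne (by rintro rfl; exact hj hi), sub_zero]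
      exact hq j hj) k rfl
  · rw [Pi.sub_apply, Pi.single_apply]
    split_ifs <;> omega
  · rw [Pi.sub_apply, Pi.single_eq_same]
    omega

theorem polH_mono {G K : ι → ℤ} {F : E n → ℂ} (h : G ≤ K) (hF : PolH c G F z) : PolH c K F z := by
  obtain ⟨s, hs, e⟩ := hF
  refine ⟨fun w => xm c (K - G) w * s w, hs.mono fun w hw =>
    (MON.diff_xm fun i => .inr (sub_nonneg.2 (h i))).mul hw, e.mono fun w hw ho => ?_⟩
  rw [hw ho, ← mul_assoc, ← MON.xm_add _ _ ho, neg_add_eq_sub, sub_sub_cancel_left]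

end EXC

theorem bEXC : St_EXC := fun _ _ _ _ _ _ _ _ B _ q _ hρ hq hH d z hz ho =>
  EXC.polH_mono (fun _ => min_le_right _ _) (EXC.exc_min B hρ q hq hH d z hz ho)

end Pool.Agent.Lib.EXS
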