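import Pool.Agent.Lib.EX.Blue
import Pool.Agent.Lib.EX.K68C

/-! Project ex41: arithmetic of the levels and numerators. -/

open scoped Classical Topology ContDiff
open Set Complex Metric Filter

set_option linter.unusedVariables false
set_option linter.unusedSectionVars false

noncomputable section

namespace Pool.Agent.Lib.EXS.L14

open Pool.Agent.Lib.SV (E)
open Pool.Agent.Lib.HS32 Pool.Agent.Lib.EX

theorem gap {m a N : ℕ} (hm : 0 < m) (ha : a ≠ 0) (hN : 0 < N) (hd : m * a ∣ N) (k c : ℤ) (j : ℕ)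
    (h : (c : ℝ) < ((j : ℝ) + 1) / N * a + k / m) : (c : ℝ) ≤ (j : ℝ) / N * a + k / m := by
  obtain ⟨d, rfl⟩ := hd
  have m0 : (0 : ℝ) < m := Nat.cast_pos.2 hm
  have a0 : (0 : ℝ) < a := Nat.cast_pos.2 (Nat.pos_of_ne_zero ha)
  have d0 : (0 : ℝ) < d := Nat.cast_pos.2 (Nat.pos_of_mul_pos_left hN)
  have e : ∀ x : ℝ, x / ((m * a * d : ℕ) : ℝ) * a + k / m = (x + k * d) / (m * d) := fun x => by
    push_cast; field_simp
  rw [e, lt_div_iff₀ (by positivity)] at h
  rw [e, le_div_iff₀ (by positivity)]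
  have h1 : c * (m * d) < (j : ℤ) + 1 + k * d := by exact_mod_cast h
  have h2 : c * (m * d) ≤ (j : ℤ) + k * d := by omega
  exact_mod_cast h2

variable {ι : Type} [Fintype ι] [DecidableEq ι] (a : ι → ℕ) (k : ι → ℤ) (m : ℕ)

/-- The orders after the jump. -/
def Pt (t : ℝ) (i : ι) : ℤ := ⌈t * a i + k i / m⌉

/-- The fractional exponents. -/
def rt (t : ℝ) (i : ι) : ℝ := t * a i + k i / m - Pt a k m t i

/-- The components of the jump. -/
def Tt (t : ℝ) : Finset ι := Finset.univ.filter fun i => rt a k m t i = 0 ∧ a i ≠ 0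

/-- The orders before the jump. -/
def Gt (t : ℝ) (i : ι) : ℤ := Pt a k m t i + if i ∈ Tt a k m t then 1 else 0

theorem rt_bd (t : ℝ) (i : ι) : -1 < rt a k m t i ∧ rt a k m t i ≤ 0 := by
  have h1 := Int.le_ceil (t * a i + k i / m)
  have h2 := Int.ceil_lt_add_one (t * a i + k i / m)
  unfold rt Pt
  constructor <;> linarith

theorem pt_eq (t : ℝ) :
    (fun i => Gt a k m t i - if i ∈ Tt a k m t then 1 else 0) = Pt a k m t :=
  funext fun i => add_sub_cancel_right _ _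

theorem pt_le (t : ℝ) : Pt a k m t ≤ Gt a k m t := fun i => by
  simp only [Gt]; split_ifs <;> omega

variable {a k m}

theorem gt_zero {i : ι} (h : a i = 0) (t : ℝ) : Gt a k m t i = ⌈(k i : ℝ) / m⌉ := by
  simp [Gt, Tt, Pt, h]

theorem gt_pos {i : ι} (h : a i ≠ 0) (t : ℝ) : Gt a k m t i = ⌊t * a i + k i / m⌋ + 1 := by
  have h1 := Int.floor_le (t * a i + k i / m)
  have h2 := Int.lt_floor_add_one (t * a i + k i / m)
  simp only [Gt, Tt, Finset.mem_filter, Finset.mem_univ, true_and, h, ne_eq, not_false_eq_true,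
    and_true, rt, Pt]
  split_ifs with h3
  · rw [sub_eq_zero.1 h3, Int.floor_intCast, Int.ceil_intCast]
  · rw [add_zero, Int.ceil_eq_iff]
    push_cast
    refine ⟨lt_of_le_of_ne (by linarith) fun h4 => h3 ?_, h2.le⟩
    rw [add_sub_cancel_right] at h4
    rw [← h4, Int.ceil_intCast, sub_self]

/-- The common denominator of the jumps. -/
theorem den (hm : 0 < m) (a : ι → ℕ) : ∃ N : ℕ, 0 < N ∧ ∀ i, a i ≠ 0 → m * a i ∣ N :=
  ⟨m * ∏ i ∈ Finset.univ.filter (a · ≠ 0), a i,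
    Nat.mul_pos hm (Finset.prod_pos fun i hi => Nat.pos_of_ne_zero (Finset.mem_filter.1 hi).2),
    fun i hi => Nat.mul_dvd_mul_left m
      (Finset.dvd_prod_of_mem _ (Finset.mem_filter.2 ⟨Finset.mem_univ i, hi⟩))⟩

theorem step (hm : 0 < m) {N : ℕ} (hN : 0 < N) (hd : ∀ i, a i ≠ 0 → m * a i ∣ N) (j : ℕ) :
    Pt a k m (((j + 1 : ℕ) : ℝ) / N) ≤ Gt a k m ((j : ℝ) / N) := fun i => by
  by_cases h : a i = 0
  · rw [gt_zero h]; simp [Pt, h]
  · rw [gt_pos h]
    have h1 := Int.ceil_lt_add_one (((j : ℝ) + 1) / N * a i + k i / m)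
    have h2 := gap hm h hN (hd i h) (k i) (⌈((j : ℝ) + 1) / N * a i + k i / m⌉ - 1) j
      (by push_cast; linarith)
    have h3 := Int.le_floor.2 h2
    simp only [Pt, Nat.cast_add, Nat.cast_one]
    omega

theorem start (hm : 0 < m) {N : ℕ} (hN : 0 < N) (hd : ∀ i, a i ≠ 0 → m * a i ∣ N) {s : ℝ}
    (h1 : ∀ i, a i ≠ 0 → (a i : ℝ) - 1 ≤ s * a i + k i / m + 1) (h0 : ∀ i, a i = 0 → -m < k i) :
    (fun i => (a i : ℤ) - sp a i) ≤ Gt a k m ((⌊s * N⌋₊ : ℝ) / N) := fun i => by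
  have m0 : (0 : ℝ) < m := Nat.cast_pos.2 hm
  have N0 : (0 : ℝ) < N := Nat.cast_pos.2 hN
  by_cases h : a i = 0
  · have h2 : (-m : ℝ) < k i := by exact_mod_cast h0 i h
    have h3 : (-1 : ℤ) < ⌈(k i : ℝ) / m⌉ := Int.lt_ceil.2 (by
      rw [lt_div_iff₀ m0]; push_cast; linarith)
    simp only [gt_zero h, sp, h, if_true]
    omega
  · have a0 : (0 : ℝ) < a i := Nat.cast_pos.2 (Nat.pos_of_ne_zero h)
    have h2 : s < ((⌊s * N⌋₊ : ℝ) + 1) / N := by
      rw [lt_div_iff₀ N0]; exact Nat.lt_floor_add_one _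
    have h3 := Int.le_floor.2 (gap hm h hN (hd i h) (k i) (a i - 2) ⌊s * N⌋₊ (by
      have := mul_lt_mul_of_pos_right h2 a0
      have := h1 i h
      push_cast; linarith))
    simp only [gt_pos h, sp, h, if_false]
    omega

theorem small (hm : 0 < m) {s t : ℝ} (ht : t ≤ s) {i : ι}
    (h1 : a i ≠ 0 → s * a i + k i / m + 1 < a i) (h0 : a i = 0 → k i ≤ 0) :
    Gt a k m t i ≤ a i - sp a i := by
  have m0 : (0 : ℝ) < m := Nat.cast_pos.2 hm
  by_cases h : a i = 0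
  · have h2 : (k i : ℝ) ≤ 0 := by exact_mod_cast h0 h
    have h3 : ⌈(k i : ℝ) / m⌉ ≤ 0 := Int.ceil_le.2 (by
      rw [div_le_iff₀ m0]; push_cast; linarith)
    simpa [gt_zero h, sp, h] using h3
  · have a0 : (0 : ℝ) ≤ a i := Nat.cast_nonneg _
    have h3 : ⌊t * a i + k i / m⌋ < (a i : ℤ) - 1 := Int.floor_lt.2 (by
      have := mul_le_mul_of_nonneg_right ht a0
      have := h1 h
      push_cast; linarith)
    simp only [gt_pos h, sp, h, if_false]
    omega

theorem nonneg (hm : 0 < m) (t : ℝ) {i : ι} (h : a i = 0) (h0 : -m < k i) : 0 ≤ Gt a k m t i := by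
  have m0 : (0 : ℝ) < m := Nat.cast_pos.2 hm
  have h2 : (-m : ℝ) < k i := by exact_mod_cast h0
  have h3 : (-1 : ℤ) < ⌈(k i : ℝ) / m⌉ := Int.lt_ceil.2 (by
    rw [lt_div_iff₀ m0]; push_cast; linarith)
  rw [gt_zero h]
  omega

/-! ### Numerators -/

variable {n : ℕ} {c : ι → Option (Fin n)}

theorem off_iff {z : E n} : xs c Finset.univ z ≠ 0 ↔ Off c z := by
  simp [xs, Off, Finset.prod_ne_zero_iff]

theorem freq (hM : St_MON) (z : E n) : ∃ᶠ w in 𝓝 z, xs c Finset.univ w ≠ 0 :=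
  (mem_closure_iff_frequently.1 ((hM n ι c).2.1 z)).mono fun _ => off_iff.2

theorem num (hM : St_MON) {K : ι → ℤ} {F : E n → ℂ} (h : ∀ z ∈ B2 n, PolH c K F z) :
    ∃ U : E n → ℂ, ∀ z ∈ B2 n, DifferentiableAt ℂ U z ∧ (Off c z → F z = xm c (-K) z * U z) := by
  obtain ⟨-, -, -, -, -, -, -, -, m9, -⟩ := hM n ι c
  refine ⟨K68.quo (fun z => xs c Finset.univ z * (xm c K z * F z)) (xs c Finset.univ),
    fun z hz => ?_⟩
  obtain ⟨s, s1, s2⟩ := h z hz
  have e := K68.quo_ev (f := fun z => xs c Finset.univ z * (xm c K z * F z)) (g := s) (x := z)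
    (Eventually.of_forall (freq hM)) (s1.mono fun _ h => h.continuousAt) (s2.mono fun w h1 h2 => by
      obtain ⟨-, h3, h4⟩ := m9 K K w (off_iff.1 h2)
      rw [h1 (off_iff.1 h2), h4, mul_inv_cancel_left₀ h3])
  exact ⟨s1.self_of_nhds.congr_of_eventuallyEq e, fun h => by
    rw [e.eq_of_nhds]; exact s2.self_of_nhds h⟩

theorem agree (hM : St_MON) {F F' U U' : E n → ℂ} {z : E n} (hU : ContinuousAt U z)
    (hU' : ContinuousAt U' z)
    (h : ∀ᶠ w in 𝓝 z, Off c w → F w = xm c (-fun i => (a i : ℤ)) w * U w)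
    (h' : ∀ᶠ w in 𝓝 z, Off c w → F' w = xm c (-fun i => (a i : ℤ)) w * U' w)
    (hd : PolH c (fun i => a i - sp a i) (F' - F) z) (h0 : xm c (fun i => (a i : ℤ)) z = 0) :
    U' z = U z := by
  obtain ⟨-, -, -, -, m5, -, -, -, m9, m10, -⟩ := hM n ι c
  obtain ⟨s, s1, s2⟩ := hd
  set J : Finset ι := Finset.univ.filter (a · ≠ 0) with hJ
  have e1 : (-fun i => (a i : ℤ) - sp a i) =
      (-fun i => (a i : ℤ)) + fun i => if i ∈ J then 1 else 0 := funext fun i => by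
    by_cases h : a i = 0 <;> simp [sp, hJ, h, sub_eq_neg_add]
  have e2 : xs c J z = 0 := by
    obtain ⟨i, -, hi⟩ := Finset.prod_eq_zero_iff.1 h0
    rw [zpow_natCast, pow_eq_zero_iff'] at hi
    exact Finset.prod_eq_zero (Finset.mem_filter.2 ⟨Finset.mem_univ i, hi.2⟩) hi.1
  have e3 := tendsto_nhds_unique_of_frequently_eq hU'
    (hU.add ((m5 J z).self_of_nhds.continuousAt.mul s1.self_of_nhds.continuousAt))
    (((freq (c := c) hM z).and_eventually (h.and (h'.and s2))).mono fun w ⟨w1, w2, w3, w4⟩ => by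
      have o := off_iff.1 w1
      obtain ⟨k1, k2, -⟩ := m9 (-fun i => (a i : ℤ)) (fun i => if i ∈ J then 1 else 0) w o
      have k3 := w4 o
      rw [e1, k1, m10, Pi.sub_apply, w2 o, w3 o] at k3
      refine mul_left_cancel₀ k2 ?_
      simp only [Pi.add_apply, Pi.mul_apply]
      linear_combination k3)
  simpa [e2] using e3

end Pool.Agent.Lib.EXS.L14
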