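import Pool.Agent.Lib.EXS.Blue0
import Pool.Agent.Lib.HS85.Frame
import Pool.Agent.Lib.SV.H_CORE
import Pool.Agent.Lib.SV.H_BOCH4
import Pool.Agent.Lib.SV.H_MOLL
import Pool.Agent.Lib.SV.H_WAP
import Pool.Agent.Lib.SV.H_RIE
import Pool.Agent.Lib.SV.B_RM
import Pool.Agent.Lib.SV.B_CUT
import Pool.Agent.Lib.SV.B_IBP
import Pool.Agent.Lib.SV.B_SUB
import Pool.Agent.Lib.SV.B_WEI
import Pool.Agent.Lib.SV.B_MON
import Pool.Agent.Lib.SV.B_WEYL

/-! Project ex41, row HORM. -/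

open scoped Classical Topology ContDiff ComplexOrder Matrix
open Set MeasureTheory Complex Metric Filter

noncomputable section

namespace Pool.Agent.Lib.EXS

open Pool.Agent.Lib.SV (E Cht RD Dom levE d2 d2_eq)
open Pool.Agent.Lib.HS32

namespace HORM

theorem hor0 : SV.St_HOR0 :=
  have kI := SV.stIBP SV.stRM SV.stCUT
  SV.stHOR0_of SV.stRM kI
    (SV.stWAP SV.stRM kI (SV.stBOCH4 SV.stRM kI) (SV.stMOLL SV.stRM SV.stCUT kI))
    (SV.stRIE SV.stRM kI
      (SV.stWEYL SV.stRM SV.stSUB SV.stWEI SV.stCUT kI (SV.stMON SV.stRM SV.stSUB SV.stWEI)))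

variable {n : ℕ}

theorem lev_nq {u : E n → ℝ} {z : E n} (hu : ContDiffAt ℝ ∞ u z) (v : E n) :
    levE u z v = 4 * nq (hess (fun w => (u w : ℂ)) z) v := by
  rw [nq, BPSH.hess_lv hu, ofReal_re, levE, d2_eq (cd_le hu 2), d2_eq (cd_le hu 2), HS66.lv]
  ring

theorem dbar_eq (G : E n → ℂ) (z v : E n) :
    fderiv ℝ G z v + I * fderiv ℝ G z (I • v) = 2 * ∑ i, star (v i) * dzb i G z := by
  rw [fderiv_eq_sum, fderiv_eq_sum, Finset.mul_sum, Finset.mul_sum, ← Finset.sum_add_distrib]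
  refine Finset.sum_congr rfl fun j _ => ?_
  rw [Pi.smul_apply, smul_eq_mul, star_mul', star_def, conj_I]
  linear_combination (dz j G z * v j - dzb j G z * (starRingEnd ℂ) (v j)) * I_mul_I

theorem glob {X Z : Type} [TopologicalSpace X] [SecondCountableTopology X] [MeasurableSpace X]
    [BorelSpace X] [TopologicalSpace Z] [MeasurableSpace Z] [BorelSpace Z] {μ : Measure X}
    {ν : Measure Z} (e : OpenPartialHomeomorph X Z) {ρ : Z → ENNReal} {U : Set X}
    (h : ∀ y ∈ U, ∃ N, IsOpen N ∧ y ∈ N ∧ N ⊆ U ∧ ∀ F : X → ENNReal,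
      ∫⁻ x in N, F x ∂μ = ∫⁻ z in e.target ∩ e.symm ⁻¹' N, ρ z * F (e.symm z) ∂ν)
    (F : X → ENNReal) :
    ∫⁻ x in U, F x ∂μ = ∫⁻ z in e.target ∩ e.symm ⁻¹' U, ρ z * F (e.symm z) ∂ν := by
  rcases U.eq_empty_or_nonempty with rfl | hne
  · simp
  choose! N h1 h2 h3 h4 using h
  obtain ⟨t, ht, tc, hc⟩ := TopologicalSpace.countable_cover_nhdsWithin (f := N) (s := U)
    fun y hy => mem_nhdsWithin_of_mem_nhds ((h1 y hy).mem_nhds (h2 y hy))
  obtain ⟨y, rfl⟩ := tc.exists_eq_range (by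
    obtain ⟨x, hx⟩ := hne
    obtain ⟨y, hy, -⟩ := mem_iUnion₂.1 (hc hx)
    exact ⟨y, hy⟩)
  have hy : ∀ i, y i ∈ U := fun i => ht ⟨i, rfl⟩
  have eU : U = ⋃ i, N (y i) :=
    Subset.antisymm (by simpa using hc) (iUnion_subset fun i => h3 _ (hy i))
  set T : ℕ → Set Z := fun i => e.target ∩ e.symm ⁻¹' N (y i) with hT
  have m1 : ∀ i, MeasurableSet (N (y i)) := fun i => (h1 _ (hy i)).measurableSet
  have m2 : ∀ i, MeasurableSet (T i) := fun i =>
    (e.isOpen_inter_preimage_symm (h1 _ (hy i))).measurableSet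
  have eT : e.target ∩ e.symm ⁻¹' U = ⋃ i, T i := by
    rw [eU, preimage_iUnion, inter_iUnion]
  rw [eT, eU, ← iUnion_disjointed, ← iUnion_disjointed (f := T),
    lintegral_iUnion (MeasurableSet.disjointed m1) (disjoint_disjointed _),
    lintegral_iUnion (MeasurableSet.disjointed m2) (disjoint_disjointed _)]
  refine tsum_congr fun i => ?_
  rw [← inter_eq_left.2 (disjointed_subset (fun i => N (y i)) i),
    ← inter_eq_left.2 (disjointed_subset T i),
    ← Measure.restrict_restrict (MeasurableSet.disjointed m1 i),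
    ← Measure.restrict_restrict (MeasurableSet.disjointed m2 i),
    ← lintegral_indicator (MeasurableSet.disjointed m1 i),
    ← lintegral_indicator (MeasurableSet.disjointed m2 i), h4 _ (hy i)]
  refine setLIntegral_congr_fun (m2 i) fun z hz => ?_
  have : e.symm z ∈ disjointed (fun i => N (y i)) i ↔ z ∈ disjointed T i := by
    simp only [disjointed_eq_inter_compl, mem_inter_iff, mem_iInter, mem_compl_iff, hT,
      mem_preimage, hz.1, true_and]
  simp only [indicator, this]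
  split_ifs <;> simp

variable {M : Mf n} {O : Set M.X} {q : M.X → E n}

theorem cht (h : M.All fun e z => e.symm z ∈ O → HolN (q ∘ e.symm) z ∧ (jm (q ∘ e.symm) z).det ≠ 0)
    (hO : IsOpen O) {y : M.X} (hy : y ∈ O) {N : Set M.X} (hN : N ∈ 𝓝 y) :
    ∃ c ∈ M.C, y ∈ c.source ∧ c.source ⊆ N ∧ Cht q O c := by
  set e := M.ch y
  have hs : y ∈ e.source := Mf.mem_ch y
  obtain ⟨a, b⟩ := h.at (Mf.ch_mem y) hs (by rwa [e.left_inv hs])
  have u : IsUnit (fderiv ℂ (q ∘ e.symm) (e y)) := by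
    rw [ContinuousLinearMap.isUnit_iff_isUnit_toLinearMap, LinearMap.isUnit_iff_isUnit_det]
    exact (((mCHN n _ _ a).2.2.2.2.2.2.1).trans_ne b).isUnit
  obtain ⟨φ, e1, e2, e3, e4, e5, -⟩ := HS85.loc_inv a u (U := e.symm ⁻¹' (O ∩ N))
    ((e.continuousAt_symm (e.map_source hs)).preimage_mem_nhds
      (by rw [e.left_inv hs]; exact inter_mem (hO.mem_nhds hy) hN))
  have k : ∀ x ∈ (e.trans φ).source, x ∈ O ∩ N := fun x hx => by
    have : e.symm (e x) ∈ O ∩ N := e3 hx.2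
    rwa [e.left_inv hx.1] at this
  refine ⟨e.trans φ, M.sat e (Mf.ch_mem y) φ e4 e5, ⟨hs, e2⟩, fun x hx => (k x hx).2,
    fun x hx => (k x hx).1, fun x hx => ?_⟩
  change _ = φ (e x)
  rw [e1, Function.comp_apply, e.left_inv hx.1]

theorem rd (h : M.All fun e z => e.symm z ∈ O → HolN (q ∘ e.symm) z ∧ (jm (q ∘ e.symm) z).det ≠ 0)
    (hO : IsOpen O) : RD q O :=
  ⟨hO, IsLocalHomeomorphOn.mk q O fun y hy => by
    obtain ⟨c, -, h1, -, h2⟩ := cht h hO hy univ_mem
    exact ⟨c, h1, h2.eq⟩⟩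

end HORM

open HORM in
theorem st_HORM : St_HORM := by
  intro n M _ O K q ex ph Γ hO hK hOK ha hb hc
  have := (mCOV n M).1
  have h0 : M.All fun e z => e.symm z ∈ O →
      HolN (q ∘ e.symm) z ∧ (jm (q ∘ e.symm) z).det ≠ 0 :=
    fun e he z hz h => ⟨(ha e he z hz h).1, (ha e he z hz h).2.1⟩
  let D : Dom n := { Y := M.X, p := q, W := O, rd := rd h0 hO }
  have R := SV.stRM n D
  have cv : ∀ e ∈ M.C, ∀ U, IsOpen U → U ⊆ O ∩ e.source → ∀ F : M.X → ENNReal,
      ∫⁻ x in U, F x ∂D.μ = ∫⁻ z in e.target ∩ e.symm ⁻¹' U,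
        ENNReal.ofReal (normSq (jm (q ∘ e.symm) z).det) * F (e.symm z) := by
    intro e he U hU hs
    refine glob e fun y hy => ?_
    obtain ⟨c, -, h1, h2, h3⟩ := cht h0 hO (hs hy).1 (hU.mem_nhds hy)
    refine ⟨c.source, c.open_source, h1, h2, fun F => ?_⟩
    have hl : ∀ z ∈ e.target ∩ e.symm ⁻¹' c.source, HolN (q ∘ e.symm) z := fun z hz =>
      (h0 e he z hz.1 (h3.sub hz.2)).1
    have im : c.target = (q ∘ e.symm) '' (e.target ∩ e.symm ⁻¹' c.source) := by
      rw [image_comp, ← c.image_source_eq_target, ← h3.eq.image_eq]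
      refine congrArg _ (Set.ext fun x => ⟨fun hx => ?_, ?_⟩)
      · have a := (hs (h2 hx)).2
        exact ⟨e x, ⟨e.map_source a, by rwa [mem_preimage, e.left_inv a]⟩, e.left_inv a⟩
      · rintro ⟨z, hz, rfl⟩
        exact hz.2
    rw [R.2.2.1 c h3 F, im, lintegral_image_eq_lintegral_abs_det_fderiv_mul volume
      (e.isOpen_inter_preimage_symm c.open_source).measurableSet
      (f' := fun z => fderiv ℝ (q ∘ e.symm) z)
      (fun z hz => (cd_diff (mCHN n _ _ (hl z hz)).1).hasFDerivAt.hasFDerivWithinAt)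
      fun z hz w hw hzw => e.symm.injOn hz.1 hw.1 (c.injOn hz.2 hw.2
        (by rw [← h3.eq hz.2, ← h3.eq hw.2]; exact hzw))]
    refine setLIntegral_congr_fun (e.isOpen_inter_preimage_symm c.open_source).measurableSet
      fun z hz => ?_
    beta_reduce
    rw [(mCHN n _ _ (hl z hz)).2.2.2.2.2.2.2.1, abs_of_nonneg (normSq_nonneg _),
      Function.comp_apply, h3.symm_p hz.2]
  have loc : ∀ y ∈ O, ∃ c ∈ M.C, y ∈ c.source ∧ Cht q O c ∧ q y = c y ∧
      ContDiffAt ℝ ∞ (ex ∘ c.symm) (c y) ∧ ContDiffAt ℝ ∞ (ph ∘ c.symm) (c y) ∧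
      ContDiffAt ℝ ∞ (Γ ∘ c.symm) (c y) ∧ (M.hs ex c (c y)).PosDef ∧
      (M.hs ph c (c y)).PosSemidef := fun y hy => by
    obtain ⟨c, h1, h2, -, h3⟩ := cht h0 hO hy univ_mem
    exact ⟨c, h1, h2, h3, h3.eq h2, (ha.at h1 h2 (by rwa [c.left_inv h2])).2.2⟩
  have : Nonempty (OpenPartialHomeomorph M.X (E n)) := ⟨M.ch (Classical.arbitrary _)⟩
  choose! e he hs V β oV mV sV cβ bβ iβ using hc
  set U : M.X → Set M.X := fun y => (e y).source ∩ e y ⁻¹' V y with hU
  have oU : ∀ y ∈ K, IsOpen (U y) := fun y hy => (e y).isOpen_inter_preimage (oV y hy)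
  obtain ⟨t, tK, ht⟩ := hK.elim_nhds_subcover U fun y hy => (oU y hy).mem_nhds ⟨hs y hy, mV y hy⟩
  have oW : ∀ y ∈ t, IsOpen (O ∩ U y) := fun y hy => hO.inter (oU y (tK y hy))
  have mem : ∀ y, ∀ x ∈ O ∩ U y, e y x ∈ V y ∩ (e y).symm ⁻¹' O := fun y x hx =>
    ⟨hx.2.2, by rw [mem_preimage, (e y).left_inv hx.2.1]; exact hx.1⟩
  have cb : ∀ y ∈ t, ContinuousOn (fun x => β y (e y x)) (O ∩ U y) := fun y hy =>
    (cβ y (tK y hy)).comp ((e y).continuousOn.mono fun x hx => hx.2.1) (mem y)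
  have nb : ∀ y ∈ t, ∀ x, 0 ≤ (O ∩ U y).indicator (fun x => β y (e y x)) x := fun y hy x =>
    indicator_nonneg (fun x hx => (bβ y (tK y hy) _ (mem y x hx)).1) x
  have cph : ContinuousOn ph O := fun y hy => by
    obtain ⟨c, -, h2, h3, h4, -, h5, -⟩ := loc y hy
    exact (((h3.sm_iff (k := 2) h2).2 (h4 ▸ cd_le h5 2)).continuousAt
      (D.rd.locH hy)).continuousWithinAt
  have fin : ∫⁻ x, ENNReal.ofReal ((∑ y ∈ t, (O ∩ U y).indicator (fun x => β y (e y x)) x) *
      Real.exp (-ph x)) ∂D.μ ≠ ⊤ := by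
    have e1 : ∀ x, ENNReal.ofReal ((∑ y ∈ t, (O ∩ U y).indicator (fun x => β y (e y x)) x) *
        Real.exp (-ph x)) = ∑ y ∈ t, (O ∩ U y).indicator
          (fun x => ENNReal.ofReal (β y (e y x) * Real.exp (-ph x))) x := fun x => by
      rw [Finset.sum_mul, ENNReal.ofReal_sum_of_nonneg fun y hy =>
        mul_nonneg (nb y hy x) (Real.exp_pos _).le]
      refine Finset.sum_congr rfl fun y _ => ?_
      simp only [indicator]
      split_ifs <;> simp
    simp only [e1]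
    have me : ∀ y ∈ t, AEMeasurable ((O ∩ U y).indicator
        fun x => ENNReal.ofReal (β y (e y x) * Real.exp (-ph x))) D.μ := fun y hy =>
      (aemeasurable_indicator_iff (oW y hy).measurableSet).2 (((cb y hy).mul
        (cph.mono inter_subset_left).neg.rexp).aemeasurable (oW y hy).measurableSet).ennreal_ofReal
    rw [lintegral_finsetSum' _ me]
    refine ENNReal.sum_ne_top.2 fun y hy => ?_
    rw [lintegral_indicator (oW y hy).measurableSet,
      cv _ (he y (tK y hy)) _ (oW y hy) fun x hx => ⟨hx.1, hx.2.1⟩]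
    refine ne_top_of_le_ne_top (iβ y (tK y hy)) (le_trans (lintegral_mono_set
      (t := (e y).target ∩ (V y ∩ (e y).symm ⁻¹' O)) fun z hz => ⟨hz.1, ?_, hz.2.1⟩) ?_)
    · have := hz.2.2.2
      rwa [mem_preimage, (e y).right_inv hz.1] at this
    · rw [inter_eq_right.2 fun z hz => sV y (tK y hy) hz.1]
      refine setLIntegral_mono' (by
        rw [← inter_eq_right.2 (sV y (tK y hy)), inter_right_comm]
        exact (((e y).isOpen_inter_preimage_symm hO).inter (oV y (tK y hy))).measurableSet)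
        fun z hz => le_of_eq ?_
      rw [(e y).right_inv (sV y (tK y hy) hz.1), ← ENNReal.ofReal_mul (normSq_nonneg _),
        mul_comm]
  obtain ⟨F, f1, f2⟩ := hor0 n D ex Γ ph
    (fun x => ∑ y ∈ t, (O ∩ U y).indicator (fun x => β y (e y x)) x)
    ⟨fun y hy => by
      obtain ⟨c, -, h2, h3, h4, h5, -⟩ := loc y hy
      exact (h3.sm_iff h2).2 (h4 ▸ cd_le h5 2),
    fun y hy v hv => by
      obtain ⟨c, -, h2, h3, h4, h5, -, -, h6, -⟩ := loc y hy
      rw [h3.lev_eq h2, h4, lev_nq h5]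
      exact mul_pos four_pos (Complex.lt_def.1 (h6.dotProduct_mulVec_pos hv)).1, hb⟩
    (fun x hx => by
      obtain ⟨c, h1, h2, h3, h4, -, h5, h6, -, h7⟩ := loc x hx
      have l : ∀ v, SV.lev q ph x v = 4 * nq (M.hs ph c (c x)) v := fun v => by
        rw [h3.lev_eq h2, h4, lev_nq h5]
        rfl
      have p : ∀ v, 0 ≤ nq (M.hs ph c (c x)) v := fun v =>
        (Complex.le_def.1 (h7.dotProduct_mulVec_nonneg v)).1
      refine ⟨(h3.sm_iff h2).2 (h4 ▸ cd_le h6 2), ⟨(h3.sm_iff h2).2 (h4 ▸ cd_le h5 2),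
        fun v => by rw [l]; linarith [p v]⟩, Finset.sum_nonneg fun y hy => nb y hy x, fun v => ?_⟩
      obtain ⟨y, hy, hxy⟩ := mem_iUnion₂.1 (ht (hOK hx))
      have b1 := Finset.single_le_sum (fun y hy => nb y hy x) hy
      rw [indicator_of_mem (show x ∈ O ∩ U y from ⟨hx, hxy⟩)] at b1
      obtain ⟨t1, -, -, t3, -⟩ := (mTR n M).2.1 _ (he y (tK y hy)) c h1 x hxy.1 h2
      have pt : (e y ∘ c.symm) (c x) = e y x := by rw [Function.comp_apply, c.left_inv h2]
      obtain ⟨-, -, -, a1, a2, -⟩ := ha.at (he y (tK y hy)) hxy.1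
        (by rwa [(e y).left_inv hxy.1])
      have ev : ∀ f : M.X → ℂ, f ∘ c.symm =ᶠ[𝓝 (c x)] (f ∘ (e y).symm) ∘ (e y ∘ c.symm) :=
        fun f => t3.mono fun w hw => by simp only [Function.comp_apply, hw.2.2.2.2.1]
      have C := mCHN n _ _ t1
      have b2 := (bβ y (tK y hy) _ (mem y x ⟨hx, hxy⟩)).2 (jm (e y ∘ c.symm) (c x) *ᵥ v)
      have e1 : M.hs ph c (c x) = (jm (e y ∘ c.symm) (c x))ᴴ * M.hs ph (e y) (e y x) *
          jm (e y ∘ c.symm) (c x) := by
        have := C.2.2.2.2.2.2.2.2.2.2.2 (M.lc ph (e y)) (by rw [pt]; exact cd_ofReal a1)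
        rw [pt] at this
        exact (hess_congr (ev fun x => (ph x : ℂ))).trans this
      have e2 : ∑ i, star (v i) * dzb i (Γ ∘ c.symm) (c x) =
          ∑ i, star ((jm (e y ∘ c.symm) (c x) *ᵥ v) i) * dzb i (Γ ∘ (e y).symm) (e y x) := by
        simp only [dzb_congr (ev Γ), (C.2.2.2.2.2.2.2.2.2.1 _ (by rw [pt]; exact cd_diff a2) _).2,
          pt, Matrix.mulVec, dotProduct, star_sum, star_mul', Finset.mul_sum, Finset.sum_mul]
        rw [Finset.sum_comm]
        exact Finset.sum_congr rfl fun _ _ => Finset.sum_congr rfl fun _ _ => by ring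
      rw [← BBD.nq_conj, ← e1, ← e2] at b2
      rw [l, SV.dbar, h3.dd_eq h2, h4, dbar_eq, norm_mul, mul_pow, Complex.norm_ofNat,
        ← normSq_eq_norm_sq]
      nlinarith [mul_le_mul_of_nonneg_right b1 (p v)])
    (Finset.aemeasurable_fun_sum _ fun y hy => (aemeasurable_indicator_iff
      (oW y hy).measurableSet).2 ((cb y hy).aemeasurable (oW y hy).measurableSet))
    fin
  refine ⟨F, fun c hc z hz hx => ?_, fun c hc => ?_⟩
  · obtain ⟨c', h1, h2, h3, h4, -⟩ := loc _ hx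
    have a := (h3.hol_iff h2).1 (f1 _ hx)
    obtain ⟨t1, -, -, t3, -⟩ := (mTR n M).2.1 c' h1 c hc _ h2 (c.map_target hz)
    rw [c.right_inv hz] at t1 t3
    refine (DifferentiableAt.comp z (g := F ∘ c'.symm) (f := c' ∘ c.symm)
      (by rwa [h4] at a) t1.self_of_nhds).congr_of_eventuallyEq (t3.mono fun w hw => ?_)
    simp only [Function.comp_apply, hw.2.2.2.2.1]
  · have o := hO.inter c.open_source
    have a := cv c hc _ o Subset.rfl fun y => ENNReal.ofReal (‖Γ y - F y‖ ^ 2 * Real.exp (-ph y))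
    have b : c.target ∩ c.symm ⁻¹' (O ∩ c.source) = c.target ∩ c.symm ⁻¹' O :=
      Set.ext fun z => ⟨fun h => ⟨h.1, h.2.1⟩, fun h => ⟨h.1, h.2, c.map_target h.1⟩⟩
    rw [b] at a
    refine ne_top_of_le_ne_top (ENNReal.mul_ne_top ENNReal.ofNat_ne_top fin) (le_trans ?_
      ((setLIntegral_le_lintegral (O ∩ c.source) _).trans f2))
    refine (lintegral_congr fun z => ?_).le.trans a.ge
    rw [← ENNReal.ofReal_mul (normSq_nonneg _), mul_comm, normSq_eq_norm_sq (_ - _)]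

end Pool.Agent.Lib.EXS
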