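import Pool.Agent.Lib.EXS.RV2
import Pool.Agent.Lib.EXS.B_HORM
import Pool.Agent.Lib.EX.B_AVG
import Pool.Agent.Lib.EX.B_MOD

/-! Project ex41, singular case: the relative vanishing theorem. -/

open scoped Classical Topology ContDiff ComplexOrder Matrix
open Set MeasureTheory Complex Metric Filter

set_option linter.unusedSectionVars false

noncomputable section

namespace Pool.Agent.Lib.EXS

open Pool.Agent.Lib.SV (E nsq nsq_nonneg)
open Pool.Agent.Lib.HS32 Pool.Agent.Lib.EX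

variable {n : ℕ} {ι : Type} [Fintype ι] [DecidableEq ι] {M : Mf n}

namespace K32

variable {D : Ad M ι}

/-- The choices made on a blow-up. -/
structure Su (R : Rc D) (B : Bl D R.a R.ex) (t : ℝ) (P : ι → ℤ) where
  q : M.X → E n
  l : Fin B.r
  H : M.X → ℂ
  J : ℕ
  ε : ℝ
  g : ι → ℤ
  J0 : J ≠ 0
  ε0 : 0 < ε
  hq : D.On B.W fun d z => HolN (D.rd q d) z
  hH : D.On B.W fun d z => D.rd H d z = R.w d z * xm (D.c d) R.k z / (jm (D.rd q d) z).det ^ R.m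
  hg : ∀ i, g i = J * (R.a i + B.e i) - R.k i
  g0 : ∀ i, 0 ≤ g i
  gz : ∀ i, g i = 0 ↔ R.a i = 0 ∧ B.e i = 0 ∧ R.k i = 0
  pz : ∀ i, g i = 0 → P i = 0
  r0 : ∀ i, -1 < t * R.a i + R.k i / R.m - P i - ε * B.e i ∧
    t * R.a i + R.k i / R.m - P i - ε * B.e i ≤ 0

namespace Su

variable {R : Rc D} {B : Bl D R.a R.ex} {t : ℝ} {P : ι → ℤ} (S : Su R B t P) {d : D.A} {z : E n}

/-- The equation of the bad set. -/
def j (x : M.X) : ℂ := (B.σ x * B.τ x S.l) ^ S.J / S.H x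

/-- The weight. -/
def ph (x : M.X) : ℝ := S.ε * Real.log (nsq (B.τ x)) + nsq (B.p x) -
  t * Real.log (normSq (B.σ x)) - (R.m : ℝ)⁻¹ * Real.log (normSq (S.H x))

/-- The smooth part of the weight. -/
def u (d : D.A) (z : E n) : ℝ := S.ε * Real.log (nsq (B.t d z)) + nsq (D.rd B.p d z)

/-- The smooth part of the density. -/
def b (d : D.A) (z : E n) : ℝ := Real.exp (t * Real.log (normSq (B.v d z)) +
  (R.m : ℝ)⁻¹ * Real.log (normSq (R.w d z)) - S.u d z)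

/-- The exponents of the density. -/
def r (i : ι) : ℝ := t * R.a i + R.k i / R.m - P i - S.ε * B.e i

theorem j_eq (hz : z ∈ B2 n) (hw : (D.e d).symm z ∈ B.W) : D.rd S.j d z =
    (B.v d z * B.t d z S.l) ^ S.J * (jm (D.rd S.q d) z).det ^ R.m / R.w d z *
      xm (D.c d) S.g z := by
  have h1 := (B.vhol d z hz hw).2.2
  have h2 := congrFun (B.thol d z hz hw).2.2 S.l
  have h3 := S.hH d z hz hw
  change (D.rd B.σ d z * D.rd B.τ d z S.l) ^ S.J / D.rd S.H d z = _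
  rw [h1, h2, h3, xm_div S.J0 S.hg S.gz, Pi.smul_apply, smul_eq_mul, div_div_eq_mul_div]
  ring

theorem w_hol (hz : z ∈ B2 n) : HolN (R.w d) z :=
  (isOpen_ball.eventually_mem hz).mono fun y hy => R.whol d y hy

theorem det_hol (hz : z ∈ B2 n) (hw : (D.e d).symm z ∈ B.W) :
    HolN (fun y => (jm (D.rd S.q d) y).det) z := (mCHN n _ z (S.hq d z hz hw)).2.2.2.2.1

theorem j_hol (hz : z ∈ B2 n) (hw : (D.e d).symm z ∈ B.W) : HolN (D.rd S.j d) z := by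
  refine hol_congr ?_ ((on_ev B.opn hz hw).mono fun y hy => S.j_eq hy.1 hy.2)
  filter_upwards [(B.vhol d z hz hw).1, hol_apply (B.thol d z hz hw).1 S.l, S.det_hol hz hw,
    w_hol (R := R) (d := d) hz, xm_hol (c := D.c d) (z := z) fun i hi => absurd hi (S.g0 i).not_gt,
    isOpen_ball.eventually_mem hz] with y a1 a2 a3 a4 a5 a6
  exact ((((a1.fun_mul a2).fun_pow _).fun_mul (a3.fun_pow _)).fun_mul
    (a4.fun_inv (R.wne d y a6))).fun_mul a5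

theorem j_ne (hz : z ∈ B2 n) (hw : (D.e d).symm z ∈ B.W) (h : D.rd S.j d z ≠ 0) :
    (jm (D.rd S.q d) z).det ≠ 0 ∧ ∀ i, S.g i ≠ 0 → xi (D.c d) i z ≠ 0 := by
  rw [S.j_eq hz hw] at h
  refine ⟨fun h0 => h (by rw [h0, zero_pow R.m0.ne']; simp), fun i hi h0 => h ?_⟩
  rw [xm, Finset.prod_eq_zero (Finset.mem_univ i) (by rw [h0, zero_zpow _ hi]), mul_zero]

theorem u_sm (hz : z ∈ B2 n) (hw : (D.e d).symm z ∈ B.W) : ContDiffAt ℝ ∞ (S.u d) z ∧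
    ∀ v, v ≠ 0 → 0 < lv (S.u d) z v := by
  obtain ⟨h1, h2, -⟩ := B.thol d z hz hw
  obtain ⟨h3, h4⟩ := lv_lg h1 h2
  have h5 := B.phol d z hz hw
  refine ⟨(contDiffAt_const.mul h3).add (cd_nsq h5), fun v hv => ?_⟩
  refine lt_of_lt_of_eq ?_ (lv_add (contDiffAt_const.mul h3) (cd_nsq h5) v).symm
  rw [lv_mul h3, lv_nsq h5]
  by_cases h : fderiv ℂ (D.rd B.p d) z v = 0
  · exact add_pos_of_pos_of_nonneg (mul_pos S.ε0 ((h4 v).2 fun c hc => hv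
      (B.imm d z hz hw v c h hc))) (nsq_nonneg _)
  · exact add_pos_of_nonneg_of_pos (mul_nonneg S.ε0.le (h4 v).1) (nsq_pos h)

theorem b_cont (hz : z ∈ B2 n) (hw : (D.e d).symm z ∈ B.W) : ContinuousAt (S.b d) z :=
  (((contDiffAt_const.mul (lv_log (B.vhol d z hz hw).1 (B.vhol d z hz hw).2.1).1).add
    (contDiffAt_const.mul (lv_log (w_hol hz) (R.wne d z hz)).1)).sub
      (S.u_sm hz hw).1).exp.continuousAt

theorem lg_tau (hz : z ∈ B2 n) (hw : (D.e d).symm z ∈ B.W) (h : D.rd S.j d z ≠ 0) :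
    xm (D.c d) (fun i => B.e i) z ≠ 0 ∧ Real.log (nsq (D.rd B.τ d z)) =
      Real.log (normSq (xm (D.c d) (fun i => B.e i) z)) + Real.log (nsq (B.t d z)) := by
  obtain ⟨-, h1, h2⟩ := B.thol d z hz hw
  have h3 : xm (D.c d) (fun i => B.e i) z ≠ 0 := xm_ne fun i hi =>
    (S.j_ne hz hw h).2 i fun h0 => hi (by rw [((S.gz i).1 h0).2.1]; rfl)
  refine ⟨h3, ?_⟩
  rw [h2, ← Real.log_mul (normSq_pos.2 h3).ne' (nsq_pos h1).ne']
  simp only [nsq, Pi.smul_apply, smul_eq_mul, map_mul, Finset.mul_sum]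

theorem ph_sm (hz : z ∈ B2 n) (hw : (D.e d).symm z ∈ B.W) (h : D.rd S.j d z ≠ 0) :
    ContDiffAt ℝ ∞ (D.rd S.ph d) z ∧ ∀ v, lv (D.rd S.ph d) z v = lv (S.u d) z v := by
  obtain ⟨h1, h2⟩ := S.j_ne hz hw h
  have ev := on_ev B.opn hz hw
  have hk : ∀ i, R.k i ≠ 0 → xi (D.c d) i z ≠ 0 := fun i hi => h2 i fun h0 => hi ((S.gz i).1 h0).2.2
  have a1 : HolN (D.rd B.σ d) z := hol_congr (by
    filter_upwards [(B.vhol d z hz hw).1, nat_hol (D.c d) R.a z] with y b1 b2 using b1.fun_mul b2)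
    (ev.mono fun y hy => (B.vhol d y hy.1 hy.2).2.2)
  have a2 : HolN (D.rd S.H d) z := hol_congr (by
    filter_upwards [w_hol (R := R) (d := d) hz, xm_hol fun i hi => hk i hi.ne, S.det_hol hz hw,
      (S.det_hol hz hw).self_of_nhds.continuousAt.eventually_ne h1] with y b1 b2 b3 b4
      using (b1.fun_mul b2).fun_mul ((b3.fun_pow R.m).fun_inv (pow_ne_zero _ b4)))
    (ev.mono fun y hy => S.hH d y hy.1 hy.2)
  have h3 := div_ne_zero_iff.1 h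
  obtain ⟨c1, c2⟩ := lv_log a1 (left_ne_zero_of_mul (ne_zero_pow S.J0 h3.1))
  obtain ⟨c3, c4⟩ := lv_log a2 h3.2
  obtain ⟨c5, c6⟩ := lv_log (nat_hol (D.c d) B.e z) (S.lg_tau hz hw h).1
  have c7 := (S.u_sm hz hw).1
  have e : D.rd S.ph d =ᶠ[𝓝 z] fun y => S.u d y +
      S.ε * Real.log (normSq (xm (D.c d) (fun i => B.e i) y)) -
      t * Real.log (normSq (D.rd B.σ d y)) - (R.m : ℝ)⁻¹ * Real.log (normSq (D.rd S.H d y)) := by
    filter_upwards [ev, (S.j_hol hz hw).self_of_nhds.continuousAt.eventually_ne h] with y b1 b2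
    change S.ε * Real.log (nsq (D.rd B.τ d y)) + nsq (D.rd B.p d y) - _ - _ = _
    rw [(S.lg_tau b1.1 b1.2 b2).2, u, mul_add, add_assoc, add_comm (S.ε * _)]
    rfl
  have d1 := c7.add ((contDiffAt_const (c := S.ε)).mul c5)
  have d2 := d1.sub ((contDiffAt_const (c := t)).mul c1)
  have d3 := (contDiffAt_const (c := (R.m : ℝ)⁻¹)).mul c3
  refine ⟨(d2.sub d3).congr_of_eventuallyEq e, fun v => ?_⟩
  rw [lv_congr e, lv_sub d2 d3, lv_sub d1 (contDiffAt_const.mul c1),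
    lv_add c7 (contDiffAt_const.mul c5), lv_mul c1, lv_mul c3, lv_mul c5, c2, c4, c6]
  ring

theorem den (hz : z ∈ B2 n) (hw : (D.e d).symm z ∈ B.W) (h : D.rd S.j d z ≠ 0) :
    (∀ i, S.r i ≠ 0 → xi (D.c d) i z ≠ 0) ∧ (∀ i, P i ≠ 0 → xi (D.c d) i z ≠ 0) ∧
    Real.exp (-D.rd S.ph d z) * normSq (jm (D.rd S.q d) z).det =
      normSq (xm (D.c d) P z) * (S.b d z * xr (D.c d) S.r z) := by
  obtain ⟨h1, h2⟩ := S.j_ne hz hw h
  have k1 : ∀ i, S.r i ≠ 0 → xi (D.c d) i z ≠ 0 := fun i hi => h2 i fun h0 => hi (by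
    obtain ⟨b1, b2, b3⟩ := (S.gz i).1 h0
    simp [r, b1, b2, b3, S.pz i h0])
  have k2 : ∀ i, P i ≠ 0 → xi (D.c d) i z ≠ 0 := fun i hi => h2 i fun h0 => hi (S.pz i h0)
  have k3 := xm_exp (K := R.k) fun i hi => h2 i fun h0 => hi ((S.gz i).1 h0).2.2
  have k4 := xm_exp (K := fun i => R.a i) fun i hi => h2 i fun h0 =>
    hi (by rw [((S.gz i).1 h0).1]; rfl)
  have k5 := xm_exp (K := fun i => B.e i) fun i hi => h2 i fun h0 =>
    hi (by rw [((S.gz i).1 h0).2.1]; rfl)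
  refine ⟨k1, k2, ?_⟩
  have p1 := normSq_pos.2 h1
  have p2 := normSq_pos.2 (B.vhol d z hz hw).2.1
  have p3 := normSq_pos.2 (R.wne d z hz)
  have m0 : (R.m : ℝ) ≠ 0 := Nat.cast_ne_zero.2 R.m0.ne'
  change Real.exp (-(S.ε * Real.log (nsq (D.rd B.τ d z)) + nsq (D.rd B.p d z) -
    t * Real.log (normSq (D.rd B.σ d z)) - _ * Real.log (normSq (D.rd S.H d z)))) * _ = _
  rw [(S.lg_tau hz hw h).2, (B.vhol d z hz hw).2.2, S.hH d z hz hw, map_div₀, map_mul, map_mul,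
    map_pow, k3, k4, k5, xm_exp k2, xr_exp k1, b, u, Real.log_mul p2.ne' (Real.exp_ne_zero _),
    Real.log_div (mul_pos p3 (Real.exp_pos _)).ne' (pow_pos p1 _).ne',
    Real.log_mul p3.ne' (Real.exp_ne_zero _), Real.log_pow, Real.log_exp, Real.log_exp,
    Real.log_exp, ← Real.exp_add, ← Real.exp_add]
  nth_rw 2 [← Real.exp_log p1]
  rw [← Real.exp_add]
  congr 1
  have e : lm (D.c d) S.r z = t * lm (D.c d) (fun i => ((R.a i : ℤ) : ℝ)) z +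
      (R.m : ℝ)⁻¹ * lm (D.c d) (fun i => R.k i) z - lm (D.c d) (fun i => P i) z -
      S.ε * lm (D.c d) (fun i => ((B.e i : ℤ) : ℝ)) z := by
    simp only [lm, Finset.mul_sum, ← Finset.sum_add_distrib, ← Finset.sum_sub_distrib, r,
      Int.cast_natCast]
    exact Finset.sum_congr rfl fun i _ => by ring
  rw [e]
  field_simp
  ring

/-- The local data. -/
theorem dat {U Ω : Set M.X} {f : M.X → ℂ} {Q : ι → ℤ} {g : E n → ℂ} {y₀ : M.X} (h0 : y₀ ∈ B.W)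
    (h1 : S.j y₀ ≠ 0) (hQ : ∀ i, R.a i = 0 → R.k i = 0 → Q i ≤ 0)
    (hΩ : ∀ y ∈ B2 n, (D.e d).symm y ∈ Ω ↔ Off (D.c d) y) (hz : z ∈ B2 n)
    (hw : (D.e d).symm z ∈ B.W) (hg : PolH (D.c d) Q g z) (hf : Pol (D.c d) P (D.rd f d - g) z) :
    ∃ V φ s δ c, Dat U {y | y ∈ U ∧ S.j y ≠ 0} S.q S.ph (fun y => limUnder (𝓝[Ω] y) f) (D.e d) V
      (D.rd S.j d) (xm (D.c d) P) φ s δ c ∧ z ∈ V ∧
      ∀ y ∈ V, Off (D.c d) y → g y = φ y ∧ ContinuousAt φ y := by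
  obtain ⟨s', a1, a2⟩ := hg
  obtain ⟨s, a3, a4⟩ := hf
  obtain ⟨c, c0, a5⟩ := lv_near (S.u_sm hz hw).1 (S.u_sm hz hw).2
  have b0 : 0 < S.b d z := Real.exp_pos _
  obtain ⟨V, v1, v2, v3⟩ := _root_.eventually_nhds_iff.1 ((on_ev B.opn hz hw).and (a1.and (a2.and
    (a3.and (a4.and (a5.and (((S.b_cont hz hw).eventually (lt_mem_nhds (half_lt_self b0))).and
      ((S.b_cont hz hw).eventually (gt_mem_nhds (lt_add_one _))))))))))
  have k1 : ∀ y ∈ V, (∀ i, S.g i ≠ 0 → xi (D.c d) i y ≠ 0) →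
      DifferentiableAt ℂ (fun w => xm (D.c d) (-Q) w * s' w) y := fun y hy h =>
    (xm_hol fun i hi => h i fun h2 => absurd (hQ i ((S.gz i).1 h2).1 ((S.gz i).1 h2).2.2)
      (by simpa using hi)).self_of_nhds.fun_mul (v1 y hy).2.1
  have jh : ∀ y ∈ V, HolN (D.rd S.j d) y := fun y hy => S.j_hol (v1 y hy).1.1 (v1 y hy).1.2
  refine ⟨V, fun w => xm (D.c d) (-Q) w * s' w, s, fun w => S.b d w * xr (D.c d) S.r w,
    min c (S.b d z / 2 * 4⁻¹ ^ Fintype.card ι), ⟨D.mem d, v2, fun y hy => tg (v1 y hy).1.1,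
      lt_min c0 (by positivity), fun y hy => (jh y hy).self_of_nhds.differentiableWithinAt,
      fun y hy => not_zero B.con (fun x hx => ?_) h0 h1 (tg (v1 y hy).1.1) (v1 y hy).1.2,
      fun y hy => Iff.rfl, fun y hy => (v1 y hy).2.2.2.1, fun y hy ho => ?_, fun y hy ho v => ?_,
      fun y hy ho => ?_, ?_⟩, v3,
    fun y hy ho => ⟨(v1 y hy).2.2.1 ho, (k1 y hy fun i _ => ho i).continuousAt⟩⟩
  · obtain ⟨d', hd⟩ := ex_ch D x
    exact ⟨_, hd, on_at (p := fun d z => HolN (D.rd S.j d) z) (fun _ _ => S.j_hol) hd hx⟩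
  · obtain ⟨⟨b1, b2⟩, -⟩ := v1 y hy
    have b3 := (S.den b1 b2 ho.2).2.1
    have b4 := (xm_hol fun i hi => b3 i hi.ne).self_of_nhds
    have b5 := k1 y hy (S.j_ne b1 b2 ho.2).2
    refine ⟨b4, xm_ne b3, b5, lim_eq (ψ := fun w => xm (D.c d) (-Q) w * s' w +
      s w / xm (D.c d) P w) (tg b1) (((MON.off_freq (D.c d) y).and_eventually
        (isOpen_ball.eventually_mem b1)).mono fun w hw => (hΩ w hw.2).2 hw.1)
      (b5.continuousAt.add ((v1 y hy).2.2.2.1.continuousAt.div b4.continuousAt (xm_ne b3))) ?_⟩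
    filter_upwards [v2.mem_nhds hy] with w hw hw'
    obtain ⟨⟨b6, -⟩, -, b7, -, b8, -⟩ := v1 w hw
    have b9 := (hΩ w b6).1 hw'
    rw [← b7 b9, div_eq_inv_mul, ← MON.xm_neg, ← b8 b9, Pi.sub_apply, add_sub_cancel]
    rfl
  · obtain ⟨⟨b1, b2⟩, -, -, -, -, b3, -⟩ := v1 y hy
    exact ((mul_le_mul_of_nonneg_right (min_le_left _ _) (sq_nonneg _)).trans (b3 v)).trans_eq
      ((S.ph_sm b1 b2 ho.2).2 v).symm
  · obtain ⟨⟨b1, b2⟩, -, -, -, -, -, b3, -⟩ := v1 y hy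
    obtain ⟨b4, -, b5⟩ := S.den b1 b2 ho.2
    exact ⟨(min_le_right _ _).trans (mul_le_mul b3.le (xr_low S.r0 b1 b4) (by positivity)
      (Real.exp_pos _).le), b5⟩
  · have i1 := ((xr_int (D.inj d) fun i => (S.r0 i).1).const_mul (S.b d z + 1)).lintegral_lt_top
    refine ne_top_of_le_ne_top (ne_top_of_le_ne_top i1.ne (lintegral_mono_set
      (s := V) fun y hy => (v1 y hy).1.1)) ((lintegral_mono_set inter_subset_left).trans
        (setLIntegral_mono_ae' v2.measurableSet (ae_of_all _ fun y hy => ?_)))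
    exact ENNReal.ofReal_le_ofReal (mul_le_mul_of_nonneg_right (v1 y hy).2.2.2.2.2.2.2.le
      (Finset.prod_nonneg fun i _ => Real.rpow_nonneg (normSq_nonneg _) _))

end Su

theorem ex_su (R : Rc D) (B : Bl D R.a R.ex) (t : ℝ) {P : ι → ℤ}
    (hP : ∀ i, P i = ⌈t * R.a i + R.k i / R.m⌉) (hn : B.W.Nonempty) :
    ∃ (S : Su R B t P) (y : M.X), y ∈ B.W ∧ S.j y ≠ 0 := by
  obtain ⟨q, l, d, z, h1, h2, h3, h4, h5, h6⟩ := ex_q B hn
  obtain ⟨H, hH⟩ := ex_H R h1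
  have e1 : ∀ᶠ ε : ℝ in 𝓝 0, ∀ i, -1 < t * R.a i + R.k i / R.m - P i - ε * B.e i :=
    eventually_all.2 fun i => ContinuousAt.eventually_lt continuousAt_const (by fun_prop) (by
      have := Int.ceil_lt_add_one (t * R.a i + R.k i / R.m)
      rw [hP]
      linarith)
  obtain ⟨ε, e2, e3⟩ := ((e1.filter_mono nhdsWithin_le_nhds).and
    (self_mem_nhdsWithin (s := Ioi 0))).exists
  obtain ⟨J, hJ⟩ := (Set.finite_range fun i => (R.k i).natAbs).bddAbove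
  have e4 : ∀ i, (R.a i = 0 ∧ B.e i = 0 ∧ R.k i ≤ 0) ∨
      R.k i < ((J + 1 : ℕ) : ℤ) * (R.a i + B.e i) := fun i => by
    have b1 : (R.k i).natAbs ≤ J := hJ ⟨i, rfl⟩
    by_cases h : R.a i = 0 ∧ B.e i = 0
    · exact Or.inl ⟨h.1, h.2, R.off i h.1 fun hi => (B.epos i hi).ne' h.2⟩
    · exact Or.inr (lt_of_lt_of_le (by omega) (le_mul_of_one_le_right (by omega) (by omega)))
  have e5 : ∀ i, ((J + 1 : ℕ) : ℤ) * (R.a i + B.e i) - R.k i = 0 ↔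
      R.a i = 0 ∧ B.e i = 0 ∧ R.k i = 0 := fun i => by
    refine ⟨fun h => ?_, fun h => by simp [h.1, h.2.1, h.2.2]⟩
    rcases e4 i with b | b
    · exact ⟨b.1, b.2.1, by simpa [b.1, b.2.1] using h⟩
    · omega
  refine ⟨⟨q, l, H, J + 1, ε, _, J.succ_ne_zero, e3, h1, hH, fun _ => rfl, fun i => ?_, e5,
    fun i h => ?_, fun i => ⟨e2 i, ?_⟩⟩, _, h3, ?_⟩
  · rcases e4 i with b | b
    · simpa [b.1, b.2.1] using b.2.2
    · omega
  · simp [hP, ((e5 i).1 h).1, ((e5 i).1 h).2.2]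
  · have := Int.le_ceil (t * R.a i + R.k i / R.m)
    have := mul_nonneg (le_of_lt e3) (B.e i).cast_nonneg
    rw [hP]
    linarith
  · exact (Su.j_eq _ h2 h3).trans_ne (mul_ne_zero (div_ne_zero (mul_ne_zero (pow_ne_zero _
      (mul_ne_zero (B.vhol d z h2 h3).2.1 h5)) (pow_ne_zero _ h6)) (R.wne d z h2))
      (MON.xm_ne _ h4))

theorem rv_core [M.Cpt] (R : Rc D) (B : Bl D R.a R.ex) (t ρ : ℝ) (P Q : ι → ℤ)
    (g : D.A → E n → ℂ) (hρ : ρ < 1) (hP : ∀ i, P i = ⌈t * R.a i + R.k i / R.m⌉)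
    (hQ : ∀ i, R.a i = 0 → R.k i = 0 → Q i ≤ 0) (hg : D.All fun d z => PolH (D.c d) Q (g d) z)
    (hd : D.Dif (fun d => PolH (D.c d) P) g) :
    ∃ F : M.X → ℂ, D.On {x | x ∈ B.W ∧ ‖B.p x‖ < ρ} fun d z =>
      PolH (D.c d) P (D.rd F d - g d) z := by
  rcases B.W.eq_empty_or_nonempty with h | h
  · exact ⟨0, fun d z _ hw => absurd hw.1 (by simp [h])⟩
  obtain ⟨S, y₀, h0, h1⟩ := ex_su R B t hP h
  have hA := (bAVG bTRF n M ι D (fun d => Pol (D.c d) P) g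
    fun d => (bMOD n ι (D.c d) P 0 ∅ 0).1).1 fun a d x ha hb => by
      obtain ⟨s, h2, h3⟩ := hd a d x ha hb
      exact ⟨s, TRF.sm_of_hol h2, h3⟩
  have key := fun d z hz hw => S.dat (d := d) (z := z) (U := {y | y ∈ B.W ∧ ‖B.p y‖ < ρ})
    (Ω := {x | ∀ b, x ∈ (D.e b).source → Off (D.c b) (D.e b x)}) h0 h1 hQ
    (fun y hy => ⟨fun h => TRF.rinv (a := d) D hy ▸ h d (TRF.mem_src D hy), fun h b hb =>
      (TRF.off_iff D hb (TRF.mem_src D hy)).2 (by rwa [TRF.rinv D hy])⟩) hz hw (hg d z hz)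
    (hA d z hz)
  obtain ⟨hU, F, hF⟩ := rv2 st_HORM (p := B.p) (q := S.q) (j := S.j) (ph := S.ph) B.opn
    (fun r hr => B.cpt r (hr.trans_lt hρ)) rfl rfl fun y hy => by
      obtain ⟨d, hd⟩ := ex_ch D y
      have h2 := TRF.mem_B D hd
      have h3 := (D.e d).left_inv hd
      have h4 : (D.e d).symm (D.e d y) ∈ B.W := by rwa [h3]
      obtain ⟨V, φ, s, δ, c, h5, h6, -⟩ := key d _ h2 h4
      refine ⟨_, D.mem d, hd, B.phol d _ h2 h4, S.hq d _ h2 h4, S.j_hol h2 h4, fun h => ?_,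
        V, _, _, φ, s, δ, c, h5, h6⟩
      have h7 : D.rd S.j d (D.e d y) ≠ 0 := by rwa [Ad.rd, h3]
      exact ⟨(S.j_ne h2 h4 h7).1, (S.ph_sm h2 h4 h7).1⟩
  refine ⟨F, fun d z hz hw => ?_⟩
  obtain ⟨V, φ, s, δ, c, h2, h3, h4⟩ := key d z hz hw.1
  obtain ⟨k, h5, h6⟩ := hF _ _ _ _ _ _ _ _ h2
  have ho := pre_open h2.opn h2.sub hU
  refine ⟨k, (ho.eventually_mem ⟨h3, hw⟩).mono fun y hy => h5.differentiableAt (ho.mem_nhds hy),
    (ho.eventually_mem ⟨h3, hw⟩).mono fun y hy hy' => ?_⟩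
  rw [Pi.sub_apply, Ad.rd, h6 y hy (h4 y hy.1 hy').2
    (MON.diff_xm fun i => Or.inl (hy' i)).continuousAt (MON.xm_ne P hy'), (h4 y hy.1 hy').1,
    add_sub_cancel_left, MON.xm_neg, div_eq_inv_mul]

end K32

/-- Relative vanishing, with explicit data. -/
theorem rv_gen [M.Cpt] (D : Ad M ι) (a : ι → ℕ) (k : ι → ℤ) (m : ℕ) (w : D.A → E n → ℂ)
    (ex : Set ι) (B : Bl D a ex) (m0 : 0 < m)
    (whol : D.All fun b z => DifferentiableAt ℂ (w b) z) (wne : D.All fun b z => w b z ≠ 0)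
    (wcmp : D.Ov fun b d x =>
      w d (D.e d x) = w b (D.e b x) * D.um k b d x * (D.J b d x).det ^ m)
    (off : ∀ i, a i = 0 → i ∉ ex → k i ≤ 0) (t ρ : ℝ) (P Q : ι → ℤ) (g : D.A → E n → ℂ)
    (hρ : ρ < 1) (hP : ∀ i, P i = ⌈t * a i + k i / m⌉) (hQ : ∀ i, a i = 0 → k i = 0 → Q i ≤ 0)
    (hg : D.All fun d z => PolH (D.c d) Q (g d) z) (hd : D.Dif (fun d => PolH (D.c d) P) g) :
    ∃ F : M.X → ℂ, D.On {x | x ∈ B.W ∧ ‖B.p x‖ < ρ} fun d z =>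
      PolH (D.c d) P (D.rd F d - g d) z :=
  K32.rv_core ⟨a, k, m, w, ex, m0, whol, wne, wcmp, off⟩ B t ρ P Q g hρ hP hQ hg hd

theorem st_RV : St_RV := fun _ _ _ _ _ _ D R b =>
  rv_gen D R.a R.k R.m R.w R.ex (R.B b) R.m0 R.whol R.wne R.wcmp fun i h => (R.off i h).2

end Pool.Agent.Lib.EXS
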