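import Pool.Agent.Lib.EXS.R32

/-! Project ex41, singular case: the vanishing theorem from pointwise data. -/

open scoped Classical Topology ContDiff ComplexOrder Matrix
open Set MeasureTheory Complex Metric Filter

noncomputable section

namespace Pool.Agent.Lib.EXS.K32

open Pool.Agent.Lib.SV (E nsq nsq_nonneg)
open Pool.Agent.Lib.HS32

variable {n : ℕ} {M : Mf n} {e e' : M.Ch} {x : M.X}

theorem ev_tr {F : Type} (f : M.X → F) (hx : x ∈ e.source) (hx' : x ∈ e'.source) :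
    f ∘ e'.symm =ᶠ[𝓝 (e' x)] (f ∘ e.symm) ∘ (e ∘ e'.symm) := by
  have h := (e'.continuousAt_symm (e'.map_source hx')).preimage_mem_nhds
    (e.open_source.mem_nhds (by rwa [e'.left_inv hx']))
  filter_upwards [h] with w hw
  simp only [Function.comp_apply, e.left_inv hw]

theorem hol_congr {F : Type} [NormedAddCommGroup F] [NormedSpace ℂ F] {f g : E n → F} {z : E n}
    (hf : HolN f z) (h : g =ᶠ[𝓝 z] f) : HolN g z := by
  filter_upwards [hf, h.eventuallyEq_nhds] with w h1 h2 using h1.congr_of_eventuallyEq h2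

theorem hol_tr {F : Type} [NormedAddCommGroup F] [NormedSpace ℂ F] {f : M.X → F} (he : e ∈ M.C)
    (he' : e' ∈ M.C) (hx : x ∈ e.source) (hx' : x ∈ e'.source) (h : HolN (f ∘ e.symm) (e x)) :
    HolN (f ∘ e'.symm) (e' x) := by
  have h1 := ((mTR n M).2.1 e he e' he' x hx hx').1
  have h2 : Tendsto (e ∘ e'.symm) (𝓝 (e' x)) (𝓝 (e x)) := by
    simpa only [Function.comp_apply, e'.left_inv hx'] using h1.self_of_nhds.continuousAt.tendsto
  refine hol_congr ?_ (ev_tr f hx hx')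
  filter_upwards [h1, h2.eventually h] with w a b using b.comp w a

theorem jm_tr {q : M.X → E n} (he : e ∈ M.C) (he' : e' ∈ M.C) (hx : x ∈ e.source)
    (hx' : x ∈ e'.source) (h : HolN (q ∘ e.symm) (e x)) :
    (jm (q ∘ e'.symm) (e' x)).det = (jm (q ∘ e.symm) (e x)).det * (M.J e e' x).det := by
  have h1 := ((mTR n M).2.1 e he e' he' x hx hx').1
  have e1 : (e ∘ e'.symm) (e' x) = e x := by simp only [Function.comp_apply, e'.left_inv hx']
  have h2 := ((mCHN n _ _ h1).2.2.2.2.2.2.2.2.1 (q ∘ e.symm) (by rwa [e1])).2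
  rw [e1] at h2
  rw [Mf.J, ← Matrix.det_mul, ← h2, jm, jm, (ev_tr q hx hx').fderiv_eq]

theorem lv_tr {u : M.X → ℝ} (he : e ∈ M.C) (he' : e' ∈ M.C) (hx : x ∈ e.source)
    (hx' : x ∈ e'.source) (h : ContDiffAt ℝ ∞ (u ∘ e.symm) (e x)) :
    M.hs u e' (e' x) = (M.J e e' x)ᴴ * M.hs u e (e x) * M.J e e' x := by
  have h1 := ((mTR n M).2.1 e he e' he' x hx hx').1
  have e1 : (e ∘ e'.symm) (e' x) = e x := by simp only [Function.comp_apply, e'.left_inv hx']
  have h2 := (mCHN n _ _ h1).2.2.2.2.2.2.2.2.2.2.2 (M.lc u e) (by rw [e1]; exact cd_ofReal h)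
  rw [e1] at h2
  exact (hess_congr (ev_tr (fun y => (u y : ℂ)) hx hx')).trans h2

theorem lim_eq {f : M.X → ℂ} {Ω : Set M.X} {ψ : E n → ℂ} {z : E n} (hz : z ∈ e.target)
    (hf : ∃ᶠ w in 𝓝 z, e.symm w ∈ Ω) (hψ : ContinuousAt ψ z)
    (h : ∀ᶠ w in 𝓝 z, e.symm w ∈ Ω → f (e.symm w) = ψ w) :
    limUnder (𝓝[Ω] (e.symm z)) f = ψ z := by
  have t1 : Tendsto e (𝓝 (e.symm z)) (𝓝 z) := by
    simpa only [e.right_inv hz] using (e.continuousAt (e.map_target hz)).tendsto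
  have : (𝓝[Ω] (e.symm z)).NeBot := mem_closure_iff_nhdsWithin_neBot.1
    (mem_closure_iff_frequently.2 ((e.continuousAt_symm hz).tendsto.frequently hf))
  refine Tendsto.limUnder_eq (((hψ.tendsto.comp t1).mono_left nhdsWithin_le_nhds).congr' ?_)
  filter_upwards [nhdsWithin_le_nhds (t1.eventually h), self_mem_nhdsWithin,
    nhdsWithin_le_nhds (e.eventually_left_inverse (e.map_target hz))] with x x1 x2 x3
  rw [x3] at x1
  exact (x1 x2).symm

/-- The identity theorem. -/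
theorem not_zero {W : Set M.X} {f : M.X → ℂ} (hc : IsPreconnected W)
    (hf : ∀ y ∈ W, ∃ e : M.Ch, y ∈ e.source ∧ HolN (f ∘ e.symm) (e y)) {y₀ : M.X} (h0 : y₀ ∈ W)
    (h1 : f y₀ ≠ 0) {z : E n} (hz : z ∈ e.target) (hw : e.symm z ∈ W) :
    ¬f ∘ e.symm =ᶠ[𝓝 z] 0 := fun h => by
  have t1 : ∀ (e : M.Ch) z, z ∈ e.target → f ∘ e.symm =ᶠ[𝓝 z] 0 → f =ᶠ[𝓝 (e.symm z)] 0 :=
    fun e z hz h => by
      have t1 : Tendsto e (𝓝 (e.symm z)) (𝓝 z) := by
        simpa only [e.right_inv hz] using (e.continuousAt (e.map_target hz)).tendsto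
      filter_upwards [t1.eventually h, e.eventually_left_inverse (e.map_target hz)] with x x1 x2
      rwa [Function.comp_apply, x2] at x1
  have h2 : W ⊆ {y | f =ᶠ[𝓝 y] 0} :=
    hc.subset_of_closure_inter_subset isOpen_setOfPred_eventually_nhds ⟨_, hw, t1 e z hz h⟩
      fun y hy => by
        obtain ⟨c, c1, c2⟩ := hf y hy.2
        have h3 := t1 c _ (c.map_source c1) (SV.H85.eventually_zero_of_frequently c2
          ((c.continuousAt c1).tendsto.frequently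
            (((mem_closure_iff_frequently.1 hy.1).and_eventually
              (c.open_source.eventually_mem c1)).mono fun w hw => ?_)))
        · rwa [c.left_inv c1] at h3
        · have h4 := (c.continuousAt_symm (c.map_source hw.2)).tendsto
          rw [c.left_inv hw.2] at h4
          exact h4.eventually hw.1
  exact h1 (h2 h0).self_of_nhds

/-- The vanishing theorem from pointwise data. -/
theorem rv2 (hH : St_HORM) [M.Cpt] {N : ℕ} {W U O : Set M.X} {p : M.X → E N} {q : M.X → E n}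
    {j Γ : M.X → ℂ} {ph : M.X → ℝ} {ρ : ℝ} (hW : IsOpen W)
    (hc : ∀ ρ' ≤ ρ, IsCompact {y | y ∈ W ∧ ‖p y‖ ≤ ρ'}) (eU : U = {y | y ∈ W ∧ ‖p y‖ < ρ})
    (eO : O = {y | y ∈ U ∧ j y ≠ 0})
    (hh : ∀ y ∈ W, ∃ e ∈ M.C, y ∈ e.source ∧ HolN (p ∘ e.symm) (e y) ∧ HolN (q ∘ e.symm) (e y) ∧
      HolN (j ∘ e.symm) (e y) ∧
      (j y ≠ 0 → (jm (q ∘ e.symm) (e y)).det ≠ 0 ∧ ContDiffAt ℝ ∞ (ph ∘ e.symm) (e y)) ∧
      ∃ V j a φ s d c, Dat U O q ph Γ e V j a φ s d c ∧ e y ∈ V) :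
    IsOpen U ∧ ∃ F : M.X → ℂ, ∀ e V j a φ s d c, Dat U O q ph Γ e V j a φ s d c →
      ∃ k, DifferentiableOn ℂ k (V ∩ e.symm ⁻¹' U) ∧ ∀ z ∈ V ∩ e.symm ⁻¹' U, ContinuousAt φ z →
        ContinuousAt a z → a z ≠ 0 → F (e.symm z) = φ z + k z / a z := by
  have cp : ∀ y ∈ W, ContinuousAt p y ∧ ContinuousAt j y := fun y hy => by
    obtain ⟨e, -, h1, h2, -, h3, -⟩ := hh y hy
    exact ⟨cont_of h1 h2.self_of_nhds.continuousAt, cont_of h1 h3.self_of_nhds.continuousAt⟩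
  have mU : ∀ y, y ∈ U ↔ y ∈ W ∧ ‖p y‖ < ρ := fun y => by rw [eU]; rfl
  have mO : ∀ y, y ∈ O ↔ y ∈ U ∧ j y ≠ 0 := fun y => by rw [eO]; rfl
  have hU : IsOpen U := isOpen_iff_mem_nhds.2 fun y hy => by
    have h1 := (mU y).1 hy
    filter_upwards [hW.mem_nhds h1.1, (cp y h1.1).1.norm.eventually (gt_mem_nhds h1.2)] with w a b
    exact (mU w).2 ⟨a, b⟩
  have hO : IsOpen O := isOpen_iff_mem_nhds.2 fun y hy => by
    have h1 := (mO y).1 hy
    filter_upwards [hU.mem_nhds h1.1, (cp y ((mU y).1 h1.1).1).2.eventually_ne h1.2] with w a b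
    exact (mO w).2 ⟨a, b⟩
  have key : M.All fun e z => e.symm z ∈ O → HolN (p ∘ e.symm) z ∧ HolN (q ∘ e.symm) z ∧
      (jm (q ∘ e.symm) z).det ≠ 0 ∧ HolN ((fun y => (j y)⁻¹) ∘ e.symm) z ∧
      ContDiffAt ℝ ∞ (ph ∘ e.symm) z ∧ ContDiffAt ℝ ∞ (Γ ∘ e.symm) z ∧
      (M.hs ph e z).PosSemidef := Mf.allOn_of_source fun e' he' y hy ho => by
    rw [e'.left_inv hy] at ho
    have h0 := (mO y).1 ho
    obtain ⟨e, he, h1, h2, h3, h4, h5, V, j', a, φ, s, d, c, h6, h7⟩ := hh y ((mU y).1 h0.1).1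
    obtain ⟨h8, h9⟩ := h5 h0.2
    have ho' : e.symm (e y) ∈ O := by rwa [e.left_inv h1]
    have nb := (pre_open h6.opn h6.sub hO).mem_nhds ⟨h7, ho'⟩
    have tr := (mTR n M).2.2.2.1
    refine ⟨hol_tr he he' h1 hy h2, hol_tr he he' h1 hy h3, ?_, hol_tr he he' h1 hy ?_,
      (tr ℝ ph).2.1 e he e' he' y h1 hy h9, (tr ℂ Γ).2.1 e he e' he' y h1 hy ?_, ?_⟩
    · rw [jm_tr he he' h1 hy h3]
      exact mul_ne_zero h8 ((mTR n M).2.1 e he e' he' y h1 hy).2.1
    · filter_upwards [h4, h4.self_of_nhds.continuousAt.eventually_ne (y := 0)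
        (by rw [Function.comp_apply, e.left_inv h1]; exact h0.2)] with w a b using a.inv b
    · have b1 : HolN a (e y) := eventually_of_mem nb fun w hw => (h6.hol w hw.1 hw.2).1
      have b2 : HolN φ (e y) := eventually_of_mem nb fun w hw => (h6.hol w hw.1 hw.2).2.2.1
      exact ((hol_cd b2).add ((h6.sm _ h7).mul ((hol_cd b1).inv
        (h6.hol _ h7 ho').2.1))).congr_of_eventuallyEq
          (eventually_of_mem nb fun w hw => (h6.hol w hw.1 hw.2).2.2.2)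
    · rw [lv_tr he he' h1 hy h9]
      exact (psd_of_lv h9 fun v => (mul_nonneg h6.c0.le (sq_nonneg _)).trans
        (h6.lo _ h7 ho' v)).conjTranspose_mul_mul_same _
  obtain ⟨ex, x1, x2⟩ := exh (W := W) (O := O) (p := p) (q := q) (R := fun y => (j y)⁻¹) (ρ := ρ)
    (fun r hr => hc r hr.le) (fun y hy => (mU y).1 ((mO y).1 hy).1)
    (fun e he z hz ho => let h := key e he z hz ho; ⟨h.1, h.2.1, h.2.2.1, h.2.2.2.1⟩)
    fun y hy h1 h2 => by
      have h3 : j y = 0 := by_contra fun h => h2 ((mO y).2 ⟨(mU y).2 ⟨hy, h1⟩, h⟩)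
      simp only [map_inv₀]
      refine tendsto_inv_nhdsGT_zero.comp (tendsto_nhdsWithin_iff.2 ⟨?_, ?_⟩)
      · have := (continuous_normSq.continuousAt.comp (cp y hy).2).tendsto
        rw [Function.comp_apply, h3, map_zero] at this
        exact this.mono_left nhdsWithin_le_nhds
      · exact eventually_of_mem self_mem_nhdsWithin fun w hw => normSq_pos.2 ((mO w).1 hw).2
  refine ⟨hU, rv1 hH hU hO (hc ρ le_rfl)
    (fun y hy => ⟨((mU y).1 ((mO y).1 hy).1).1, ((mU y).1 ((mO y).1 hy).1).2.le⟩)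
    (fun e he z hz ho => ?_) x2 fun y hy => ?_⟩
  · obtain ⟨-, h1, h2, -, h3, h4, h5⟩ := key e he z hz ho
    exact ⟨h1, h2, (x1 e he z hz ho).1, h3, h4, (x1 e he z hz ho).2, h5⟩
  · obtain ⟨e, -, h1, -, -, -, -, V, j', a, φ, s, d, c, h6, h7⟩ := hh y hy.1
    exact ⟨e, V, j', a, φ, s, d, c, h6, h1, h7⟩

end Pool.Agent.Lib.EXS.K32
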