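import Pool.Agent.Lib.HS32.MAll
import Pool.Agent.Lib.HS32.MKit

/-! Project ex41, singular case: the theorem of Hörmander on an open set with étale coordinates. -/

open scoped Classical Topology ContDiff ComplexOrder Matrix
open Set MeasureTheory Complex Metric Filter

noncomputable section

namespace Pool.Agent.Lib.EXS

open Pool.Agent.Lib.SV (E)
open Pool.Agent.Lib.HS32

/-- The theorem of Hörmander on an open set with étale coordinates `q`. -/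
def St_HORM : Prop := ∀ (n : ℕ) (M : Mf n) [M.Cpt] (O K : Set M.X) (q : M.X → E n)
  (ex ph : M.X → ℝ) (Γ : M.X → ℂ), IsOpen O → IsCompact K → O ⊆ K →
  (M.All fun e z => e.symm z ∈ O → HolN (q ∘ e.symm) z ∧ (jm (q ∘ e.symm) z).det ≠ 0 ∧
    ContDiffAt ℝ ∞ (ex ∘ e.symm) z ∧ ContDiffAt ℝ ∞ (ph ∘ e.symm) z ∧
    ContDiffAt ℝ ∞ (Γ ∘ e.symm) z ∧ (M.hs ex e z).PosDef ∧ (M.hs ph e z).PosSemidef) →
  (∀ a : ℝ, IsCompact {y | y ∈ O ∧ ex y ≤ a}) →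
  (∀ y ∈ K, ∃ e ∈ M.C, y ∈ e.source ∧ ∃ (V : Set (E n)) (β : E n → ℝ), IsOpen V ∧ e y ∈ V ∧
    V ⊆ e.target ∧ ContinuousOn β (V ∩ e.symm ⁻¹' O) ∧
    (∀ z ∈ V ∩ e.symm ⁻¹' O, 0 ≤ β z ∧ ∀ v : E n,
      normSq (∑ i, star (v i) * dzb i (Γ ∘ e.symm) z) ≤ β z * nq (M.hs ph e z) v) ∧
    ∫⁻ z in V ∩ e.symm ⁻¹' O, ENNReal.ofReal
      (β z * Real.exp (-ph (e.symm z)) * normSq (jm (q ∘ e.symm) z).det) ≠ ⊤) →
  ∃ F : M.X → ℂ, (M.All fun e z => e.symm z ∈ O → DifferentiableAt ℂ (F ∘ e.symm) z) ∧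
    ∀ e ∈ M.C, ∫⁻ z in e.target ∩ e.symm ⁻¹' O, ENNReal.ofReal
      (normSq (Γ (e.symm z) - F (e.symm z)) * Real.exp (-ph (e.symm z)) *
        normSq (jm (q ∘ e.symm) z).det) ≠ ⊤

end Pool.Agent.Lib.EXS
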