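import Pool.Agent.Lib.EX.All
import Pool.Agent.Lib.EXS.B_LOOP
import Pool.Agent.Lib.EXS.B_EXC

/-! Project ex41: the theorem on the manifold layer from relative vanishing. -/

namespace Pool.Agent.Lib.EXS

open Pool.Agent.Lib.EX

theorem aSING (hR : St_RV) : St_SING := bLOOP aMON aMOD aINC aTRF aLEVEL hR bEXC

end Pool.Agent.Lib.EXS
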