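import Pool.Agent.Lib.EXS.All0
import Pool.Agent.Lib.EXS.B_RV
import Pool.Agent.Lib.EX.B_BRG

/-! Project ex41: the theorem on the manifold layer. -/

namespace Pool.Agent.Lib.EXS

open Pool.Agent.Lib.EX

theorem sing : St_SING := aSING st_RV

theorem target_of (h : St_RSB) : St_TARGET := bBRG h sing

end Pool.Agent.Lib.EXS
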