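import Pool.Agent.Lib.EXS.K32
import Pool.Agent.Lib.EXS.Blue0

/-! Project ex41, singular case: the exhaustion and the abstract vanishing theorem. -/

open scoped Classical Topology ContDiff ComplexOrder Matrix
open Set MeasureTheory Complex Metric Filter

noncomputable section

namespace Pool.Agent.Lib.EXS.K32

open Pool.Agent.Lib.SV (E nsq nsq_nonneg)
open Pool.Agent.Lib.HS32

variable {n : ℕ} {M : Mf n}

theorem cont_of {F : Type} [TopologicalSpace F] {f : M.X → F} {e : M.Ch} {y : M.X}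
    (hy : y ∈ e.source) (h : ContinuousAt (f ∘ e.symm) (e y)) : ContinuousAt f y :=
  (ContinuousAt.comp (g := f ∘ e.symm) h (e.continuousAt hy)).congr
    ((e.eventually_left_inverse hy).mono fun x hx => by simp [hx])

theorem jm_inj {q : E n → E n} {z v : E n} (h : HolN q z) (h0 : (jm q z).det ≠ 0) (hv : v ≠ 0) :
    fderiv ℂ q z v ≠ 0 := by
  rw [(mCHN n q z h).2.2.2.2.2.1]
  exact fun h1 => hv (Matrix.eq_zero_of_mulVec_eq_zero h0 h1)

/-- The exhaustion. -/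
theorem exh {N : ℕ} {W O : Set M.X} [T2Space M.X] {p : M.X → E N} {q : M.X → E n} {R : M.X → ℂ}
    {ρ : ℝ} (hc : ∀ ρ' < ρ, IsCompact {y | y ∈ W ∧ ‖p y‖ ≤ ρ'})
    (hO : ∀ y ∈ O, y ∈ W ∧ ‖p y‖ < ρ)
    (hh : M.All fun e z => e.symm z ∈ O → HolN (p ∘ e.symm) z ∧ HolN (q ∘ e.symm) z ∧
      (jm (q ∘ e.symm) z).det ≠ 0 ∧ HolN (R ∘ e.symm) z)
    (hb : ∀ y ∈ W, ‖p y‖ < ρ → y ∉ O → Tendsto (fun x => normSq (R x)) (𝓝[O] y) atTop) :
    ∃ ex : M.X → ℝ, (M.All fun e z => e.symm z ∈ O →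
      ContDiffAt ℝ ∞ (ex ∘ e.symm) z ∧ (M.hs ex e z).PosDef) ∧
      ∀ a : ℝ, IsCompact {y | y ∈ O ∧ ex y ≤ a} := by
  have lt : ∀ y ∈ O, ∀ j, normSq (p y j) < ρ ^ 2 := fun y hy j => by
    rw [normSq_eq_norm_sq]
    exact pow_lt_pow_left₀ ((norm_le_pi_norm _ j).trans_lt (hO y hy).2) (norm_nonneg _) two_ne_zero
  have key : M.All fun e z => e.symm z ∈ O →
      ContDiffAt ℝ ∞ ((fun y => nsq (q y) + normSq (R y) +
        ∑ j, (ρ ^ 2 - normSq (p y j))⁻¹) ∘ e.symm) z ∧ (M.hs (fun y => nsq (q y) + normSq (R y) +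
        ∑ j, (ρ ^ 2 - normSq (p y j))⁻¹) e z).PosDef := fun e he z hz ho => by
    obtain ⟨h1, h2, h3, h4⟩ := hh e he z hz ho
    have a1 := cd_nsq h2
    have a2 := cd_normSq (hol_cd h4)
    have a3 := fun j => cd_normSq (hol_cd (hol_apply h1 j))
    have a4 : ∀ j ∈ Finset.univ, ContDiffAt ℝ ∞
        (fun w => (ρ ^ 2 - normSq (p (e.symm w) j))⁻¹) z := fun j _ =>
      (contDiffAt_const.sub (a3 j)).inv (sub_pos.2 (lt _ ho j)).ne'
    have a5 := (a1.add a2).add (ContDiffAt.sum a4)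
    refine ⟨a5, pd_of_lv a5 fun v hv => ?_⟩
    refine lt_of_lt_of_eq ?_ (lv_add (a1.add a2) (ContDiffAt.sum a4) v).symm
    rw [lv_add a1 a2, lv_sum a4, lv_nsq h2]
    exact add_pos_of_pos_of_nonneg (add_pos_of_pos_of_nonneg (nsq_pos (jm_inj h2 h3 hv))
      (lv_normSq h4 v)) (Finset.sum_nonneg fun j _ =>
        lv_inv (a3 j) (lt _ ho j) (lv_normSq (hol_apply h1 j) v))
  refine ⟨_, key, fun a => ?_⟩
  have nn : ∀ y ∈ O, ∀ j ∈ Finset.univ, 0 ≤ (ρ ^ 2 - normSq (p y j))⁻¹ := fun y hy j _ =>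
    (inv_pos.2 (sub_pos.2 (lt y hy j))).le
  rcases {y | y ∈ O ∧ nsq (q y) + normSq (R y) +
    ∑ j, (ρ ^ 2 - normSq (p y j))⁻¹ ≤ a}.eq_empty_or_nonempty with e | ⟨y₀, h₀⟩
  · rw [e]; exact isCompact_empty
  have r0 : 0 < ρ := (norm_nonneg _).trans_lt (hO y₀ h₀.1).2
  have r1 : √(ρ ^ 2 - (|a| + 1)⁻¹) < ρ := by
    rw [Real.sqrt_lt' r0]
    have : 0 < (|a| + 1)⁻¹ := by positivity
    linarith
  have sub : ∀ y ∈ O, nsq (q y) + normSq (R y) + ∑ j, (ρ ^ 2 - normSq (p y j))⁻¹ ≤ a →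
      y ∈ {y | y ∈ W ∧ ‖p y‖ ≤ √(ρ ^ 2 - (|a| + 1)⁻¹)} := fun y hy h => by
    refine ⟨(hO y hy).1, (pi_norm_le_iff_of_nonneg (Real.sqrt_nonneg _)).2 fun j => ?_⟩
    have h1 := Finset.single_le_sum (nn y hy) (Finset.mem_univ j)
    have h2 : (ρ ^ 2 - normSq (p y j))⁻¹ ≤ |a| + 1 := by
      linarith [nsq_nonneg (q y), normSq_nonneg (R y), le_abs_self a]
    have h3 := inv_le_of_inv_le₀ (sub_pos.2 (lt y hy j)) h2
    rw [normSq_eq_norm_sq] at h3
    exact Real.le_sqrt_of_sq_le (by linarith)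
  refine (hc _ r1).of_isClosed_subset (isClosed_of_closure_subset fun y hy => ?_)
    fun y hy => sub y hy.1 hy.2
  have hK := closure_minimal (fun y hy => sub y hy.1 hy.2) (hc _ r1).isClosed hy
  have hf := mem_closure_iff_frequently.1 hy
  have ho : y ∈ O := by
    by_contra hn
    have h1 := (hb y hK.1 (hK.2.trans_lt r1) hn).eventually (eventually_gt_atTop a)
    obtain ⟨x, h2, h3⟩ := (hf.and_eventually (eventually_nhdsWithin_iff.1 h1)).exists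
    linarith [h2.2, h3 h2.1, nsq_nonneg (q x), Finset.sum_nonneg (nn x h2.1)]
  have h1 := key _ (Mf.ch_mem y) _ (Mf.ch_tgt y) (by rwa [Mf.ch_symm])
  exact ⟨ho, le_of_tendsto_of_frequently (cont_of (Mf.mem_ch y) h1.1.continuousAt)
    (hf.mono fun x hx => hx.2)⟩

/-- Local data for the vanishing theorem. -/
structure Dat (U O : Set M.X) (q : M.X → E n) (ph : M.X → ℝ) (Γ : M.X → ℂ) (e : M.Ch)
    (V : Set (E n)) (j a φ s : E n → ℂ) (d : E n → ℝ) (c : ℝ) : Prop where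
  mem : e ∈ M.C
  opn : IsOpen V
  sub : V ⊆ e.target
  c0 : 0 < c
  jh : DifferentiableOn ℂ j V
  jn : ∀ z ∈ V, ¬j =ᶠ[𝓝 z] 0
  jo : ∀ z ∈ V, e.symm z ∈ O ↔ e.symm z ∈ U ∧ j z ≠ 0
  sm : ∀ z ∈ V, ContDiffAt ℝ ∞ s z
  hol : ∀ z ∈ V, e.symm z ∈ O → DifferentiableAt ℂ a z ∧ a z ≠ 0 ∧ DifferentiableAt ℂ φ z ∧
    Γ (e.symm z) = φ z + s z / a z
  lo : ∀ z ∈ V, e.symm z ∈ O → ∀ v, c * ‖v‖ ^ 2 ≤ nq (M.hs ph e z) v
  den : ∀ z ∈ V, e.symm z ∈ O → c ≤ d z ∧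
    Real.exp (-ph (e.symm z)) * normSq (jm (q ∘ e.symm) z).det = normSq (a z) * d z
  fin : ∫⁻ z in V ∩ e.symm ⁻¹' O, ENNReal.ofReal (d z) ≠ ⊤

variable {U O K : Set M.X} {q : M.X → E n} {ph : M.X → ℝ} {Γ F : M.X → ℂ} {e : M.Ch}
  {V : Set (E n)} {j a φ s : E n → ℂ} {d : E n → ℝ} {c : ℝ} {z : E n}

theorem pre_open (hV : IsOpen V) (hs : V ⊆ e.target) (hO : IsOpen O) :
    IsOpen (V ∩ e.symm ⁻¹' O) :=
  (e.continuousOn_symm.mono hs).isOpen_inter_preimage hV hO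

theorem Dat.dzb_eq (h : Dat U O q ph Γ e V j a φ s d c) (hO : IsOpen O)
    (hz : z ∈ V ∩ e.symm ⁻¹' O) (i : Fin n) : dzb i (Γ ∘ e.symm) z = dzb i s z / a z := by
  obtain ⟨h1, h2, h3, -⟩ := h.hol z hz.1 hz.2
  have e1 : Γ ∘ e.symm =ᶠ[𝓝 z] fun w => φ w + s w * (a w)⁻¹ :=
    eventually_of_mem ((pre_open h.opn h.sub hO).mem_nhds hz) fun w hw =>
      (h.hol w hw.1 hw.2).2.2.2.trans (by rw [div_eq_mul_inv])
  have h4 : DifferentiableAt ℂ (fun w => (a w)⁻¹) z := h1.inv h2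
  have h5 := cd_diff (h.sm z hz.1)
  rw [dzb_congr e1, dzb_add (h3.restrictScalars ℝ) (h5.fun_mul (h4.restrictScalars ℝ)),
    dzb_mul h5 (h4.restrictScalars ℝ), ((mHOL n _ z).1 (h3.restrictScalars ℝ)).1 h3,
    ((mHOL n _ z).1 (h4.restrictScalars ℝ)).1 h4]
  ring

theorem sum_le (v w : E n) : normSq (∑ i, star (v i) * w i) ≤ (n * ‖w‖) ^ 2 * ‖v‖ ^ 2 := by
  rw [normSq_eq_norm_sq, ← mul_pow]
  refine pow_le_pow_left₀ (norm_nonneg _) ((norm_sum_le _ _).trans ?_) 2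
  refine (Finset.sum_le_card_nsmul _ _ (‖w‖ * ‖v‖) fun i _ => ?_).trans (by simp [mul_assoc])
  rw [norm_mul, norm_star, mul_comm]
  exact mul_le_mul (norm_le_pi_norm w i) (norm_le_pi_norm v i) (norm_nonneg _) (norm_nonneg _)

theorem Dat.beta (h : Dat U O q ph Γ e V j a φ s d c) (hO : IsOpen O) (hz : z ∈ V) :
    ∃ (V : Set (E n)) (β : E n → ℝ), IsOpen V ∧ z ∈ V ∧
    V ⊆ e.target ∧ ContinuousOn β (V ∩ e.symm ⁻¹' O) ∧
    (∀ z ∈ V ∩ e.symm ⁻¹' O, 0 ≤ β z ∧ ∀ v : E n,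
      normSq (∑ i, star (v i) * dzb i (Γ ∘ e.symm) z) ≤ β z * nq (M.hs ph e z) v) ∧
    ∫⁻ z in V ∩ e.symm ⁻¹' O, ENNReal.ofReal
      (β z * Real.exp (-ph (e.symm z)) * normSq (jm (q ∘ e.symm) z).det) ≠ ⊤ := by
  have h1 : ContinuousAt (fun w => ‖fun i => dzb i s w‖) z :=
    (continuousAt_pi.2 fun i => (cd_dzb (h.sm z hz) i).continuousAt).norm
  obtain ⟨V', a1, a2, a3⟩ := _root_.eventually_nhds_iff.1
    ((h1.eventually (gt_mem_nhds (lt_add_one _))).and (h.opn.eventually_mem hz))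
  generalize (fun w => ‖fun i => dzb i s w‖) z + 1 = B at a1
  have c0 := h.c0
  refine ⟨V', fun w => (n * B) ^ 2 / c / normSq (a w), a2, a3, fun w hw => h.sub (a1 w hw).2,
    fun w hw => ?_, fun w hw => ⟨div_nonneg (by positivity) (normSq_nonneg _), fun v => ?_⟩, ?_⟩
  · obtain ⟨h2, h3, -⟩ := h.hol w (a1 w hw.1).2 hw.2
    exact (continuousAt_const.div (continuous_normSq.continuousAt.comp h2.continuousAt)
      (normSq_pos.2 h3).ne').continuousWithinAt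
  · have h3 := normSq_pos.2 (h.hol w (a1 w hw.1).2 hw.2).2.1
    simp only [h.dzb_eq hO ⟨(a1 w hw.1).2, hw.2⟩, ← mul_div_assoc, ← Finset.sum_div, map_div₀]
    rw [div_mul_eq_mul_div, div_le_div_iff_of_pos_right h3, div_mul_eq_mul_div, le_div_iff₀ c0]
    have h4 := mul_le_mul_of_nonneg_right (sum_le v fun i => dzb i s w) c0.le
    have h5 : (n * ‖fun i => dzb i s w‖) ^ 2 ≤ (n * B) ^ 2 :=
      pow_le_pow_left₀ (by positivity) (mul_le_mul_of_nonneg_left (a1 w hw.1).1.le n.cast_nonneg) 2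
    have h6 := mul_le_mul h5 (h.lo w (a1 w hw.1).2 hw.2 v) (by positivity) (by positivity)
    linarith
  · have m := (pre_open a2 (fun w hw => h.sub (a1 w hw).2) hO).measurableSet
    rw [setLIntegral_congr_fun m (g := fun w => ENNReal.ofReal ((n * B) ^ 2 / c) *
      ENNReal.ofReal (d w)) fun w hw => ?_, lintegral_const_mul' _ _ ENNReal.ofReal_ne_top]
    · exact ENNReal.mul_ne_top ENNReal.ofReal_ne_top (ne_top_of_le_ne_top h.fin
        (lintegral_mono_set fun w hw => ⟨(a1 w hw.1).2, hw.2⟩))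
    · have h3 := normSq_pos.2 (h.hol w (a1 w hw.1).2 hw.2).2.1
      dsimp only
      rw [← ENNReal.ofReal_mul (by positivity), mul_assoc, (h.den w (a1 w hw.1).2 hw.2).2]
      congr 1
      field_simp

theorem Dat.ext (h : Dat U O q ph Γ e V j a φ s d c) (hU : IsOpen U)
    (hF : ∀ z ∈ e.target, e.symm z ∈ O → DifferentiableAt ℂ (F ∘ e.symm) z)
    (hi : ∫⁻ z in e.target ∩ e.symm ⁻¹' O, ENNReal.ofReal
      (normSq (Γ (e.symm z) - F (e.symm z)) * Real.exp (-ph (e.symm z)) *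
        normSq (jm (q ∘ e.symm) z).det) ≠ ⊤) :
    ∃ k, DifferentiableOn ℂ k (V ∩ e.symm ⁻¹' U) ∧ ∀ z ∈ V ∩ e.symm ⁻¹' U, ContinuousAt φ z →
      ContinuousAt a z → a z ≠ 0 → limUnder (𝓝[O] (e.symm z)) F = φ z + k z / a z := by
  have ho := pre_open h.opn h.sub hU
  have c0 := h.c0
  obtain ⟨k, k1, k2⟩ := SV.H85.ext_sq volume (f := fun w => (F (e.symm w) - φ w) * a w) ho
    (h.jh.mono inter_subset_left) (fun z hz => h.jn z hz.1) (fun w hw => by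
      have h1 := (h.jo w hw.1.1).2 ⟨hw.1.2, hw.2⟩
      obtain ⟨h2, -, h3, -⟩ := h.hol w hw.1.1 h1
      exact (((hF w (h.sub hw.1.1) h1).sub h3).mul h2).differentiableWithinAt) fun z hz => by
      obtain ⟨r, r0, hr⟩ := Metric.eventually_nhds_iff_ball.1
        (((h.sm z hz.1).continuousAt.norm.eventually (gt_mem_nhds (lt_add_one _))).and
          (ho.mem_nhds hz))
      generalize ‖s z‖ + 1 = B at hr
      refine ⟨_, ball_mem_nhds z r0, ne_top_of_le_ne_top ?_ (setLIntegral_mono_ae'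
        (g := fun w => ENNReal.ofReal (2 / c) * ENNReal.ofReal
          (normSq (Γ (e.symm w) - F (e.symm w)) * Real.exp (-ph (e.symm w)) *
            normSq (jm (q ∘ e.symm) w).det) + ENNReal.ofReal (2 * B ^ 2)) ?_
              (ae_of_all _ fun w hw => ?_))⟩
      · rw [lintegral_add_right _ measurable_const, lintegral_const_mul' _ _ ENNReal.ofReal_ne_top,
          setLIntegral_const]
        refine ENNReal.add_ne_top.2 ⟨ENNReal.mul_ne_top ENNReal.ofReal_ne_top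
          (ne_top_of_le_ne_top hi (lintegral_mono_set fun w hw => ?_)), ENNReal.mul_ne_top
          ENNReal.ofReal_ne_top (ne_top_of_le_ne_top (measure_ball_lt_top (x := z) (r := r)).ne
            (measure_mono fun w hw => hw.1))⟩
        have h1 := (hr w hw.1).2
        exact ⟨h.sub h1.1, (h.jo w h1.1).2 ⟨h1.2, hw.2⟩⟩
      · exact ((h.jh.continuousOn.mono fun w hw => (hr w hw).2.1).isOpen_inter_preimage isOpen_ball
          isOpen_ne).measurableSet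
      · obtain ⟨h0, h1⟩ := hr w hw.1
        have h2 := (h.jo w h1.1).2 ⟨h1.2, hw.2⟩
        obtain ⟨-, h3, -, h4⟩ := h.hol w h1.1 h2
        obtain ⟨h5, h6⟩ := h.den w h1.1 h2
        rw [← ENNReal.ofReal_mul (by positivity), mul_assoc, h6]
        refine le_trans (ENNReal.ofReal_le_ofReal ?_) ENNReal.ofReal_add_le
        have e1 : (F (e.symm w) - φ w) * a w = s w - (Γ (e.symm w) - F (e.symm w)) * a w := by
          rw [h4]; field_simp; ring
        have h7 := norm_sub_le (s w) ((Γ (e.symm w) - F (e.symm w)) * a w)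
        rw [e1, ← mul_assoc, ← mul_assoc, mul_assoc (2 / c), ← map_mul, normSq_eq_norm_sq]
        generalize ‖(Γ (e.symm w) - F (e.symm w)) * a w‖ = t at h7 ⊢
        have h8 : 2 * t ^ 2 ≤ 2 / c * t ^ 2 * d w := by
          rw [div_mul_eq_mul_div, div_mul_eq_mul_div, le_div_iff₀ c0]
          exact mul_le_mul_of_nonneg_left h5 (by positivity)
        have h9 := pow_le_pow_left₀ (norm_nonneg _) h7 2
        have h10 := pow_le_pow_left₀ (norm_nonneg _) h0.le 2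
        nlinarith [sq_nonneg (‖s w‖ - t)]
  refine ⟨k, k1, fun z hz b1 b2 b3 => ?_⟩
  have hz' := h.sub hz.1
  have t1 : Tendsto e (𝓝 (e.symm z)) (𝓝 z) := by
    simpa only [e.right_inv hz'] using (e.continuousAt (e.map_target hz')).tendsto
  have : (𝓝[O] (e.symm z)).NeBot := mem_closure_iff_nhdsWithin_neBot.1
    (mem_closure_iff_frequently.2 ((e.continuousAt_symm hz').tendsto.frequently
      (((not_eventually.1 (h.jn z hz.1)).and_eventually (ho.mem_nhds hz)).mono fun w hw =>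
        (h.jo w hw.2.1).2 ⟨hw.2.2, hw.1⟩)))
  have t2 : ContinuousAt (fun w => φ w + k w / a w) z :=
    b1.add ((k1.differentiableAt (ho.mem_nhds hz)).continuousAt.div b2 b3)
  refine Tendsto.limUnder_eq (((t2.tendsto.comp t1).mono_left nhdsWithin_le_nhds).congr' ?_)
  filter_upwards [nhdsWithin_le_nhds (t1.eventually (ho.mem_nhds hz)), self_mem_nhdsWithin,
    nhdsWithin_le_nhds (e.eventually_left_inverse (e.map_target hz'))] with x x1 x2 x3
  have x4 : e.symm (e x) ∈ O := by rwa [x3]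
  rw [Function.comp_apply, k2 _ x1 ((h.jo _ x1.1).1 x4).2, x3,
    mul_div_cancel_right₀ _ (h.hol _ x1.1 x4).2.1, add_sub_cancel]

/-- The abstract vanishing theorem. -/
theorem rv1 (hH : St_HORM) [M.Cpt] {ex : M.X → ℝ} (hU : IsOpen U) (hO : IsOpen O)
    (hK : IsCompact K) (hs : O ⊆ K)
    (hh : M.All fun e z => e.symm z ∈ O → HolN (q ∘ e.symm) z ∧ (jm (q ∘ e.symm) z).det ≠ 0 ∧
      ContDiffAt ℝ ∞ (ex ∘ e.symm) z ∧ ContDiffAt ℝ ∞ (ph ∘ e.symm) z ∧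
      ContDiffAt ℝ ∞ (Γ ∘ e.symm) z ∧ (M.hs ex e z).PosDef ∧ (M.hs ph e z).PosSemidef)
    (hc : ∀ a : ℝ, IsCompact {y | y ∈ O ∧ ex y ≤ a})
    (hd : ∀ y ∈ K, ∃ e V j a φ s d c, Dat U O q ph Γ e V j a φ s d c ∧ y ∈ e.source ∧ e y ∈ V) :
    ∃ F : M.X → ℂ, ∀ e V j a φ s d c, Dat U O q ph Γ e V j a φ s d c →
      ∃ k, DifferentiableOn ℂ k (V ∩ e.symm ⁻¹' U) ∧ ∀ z ∈ V ∩ e.symm ⁻¹' U, ContinuousAt φ z →
        ContinuousAt a z → a z ≠ 0 → F (e.symm z) = φ z + k z / a z := by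
  obtain ⟨F, h1, h2⟩ := hH n M O K q ex ph Γ hO hK hs hh hc fun y hy => by
    obtain ⟨e, V, j, a, φ, s, d, c, h, h1, h2⟩ := hd y hy
    exact ⟨e, h.mem, h1, h.beta hO h2⟩
  exact ⟨fun y => limUnder (𝓝[O] y) F, fun e V j a φ s d c h =>
    h.ext hU (h1 e h.mem) (h2 e h.mem)⟩

end Pool.Agent.Lib.EXS.K32
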