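import Pool.Agent.Lib.EXS.RV1
import Pool.Agent.Lib.EXS.RV0
import Pool.Agent.Lib.EX.B_MON
import Pool.Agent.Lib.EX.B_TRF
import Pool.Agent.Lib.EX.K78

/-! Project ex41, singular case: monomials, coordinates and the weight on a blow-up. -/

open scoped Classical Topology ContDiff ComplexOrder Matrix
open Set MeasureTheory Complex Metric Filter

noncomputable section

namespace Pool.Agent.Lib.EXS.K32

open Pool.Agent.Lib.SV (E nsq nsq_nonneg)
open Pool.Agent.Lib.HS32 Pool.Agent.Lib.EX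

variable {n : ℕ} {ι : Type} [Fintype ι] [DecidableEq ι]

section euc

variable {c : ι → Option (Fin n)} {z : E n} {r : ι → ℝ} {K : ι → ℤ}

/-- The logarithm of a monomial. -/
def lm (c : ι → Option (Fin n)) (r : ι → ℝ) (z : E n) : ℝ :=
  ∑ i, r i * Real.log (normSq (xi c i z))

omit [DecidableEq ι] in
theorem xr_exp (h : ∀ i, r i ≠ 0 → xi c i z ≠ 0) : xr c r z = Real.exp (lm c r z) := by
  rw [lm, Real.exp_sum, xr]
  refine Finset.prod_congr rfl fun i _ => ?_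
  by_cases h0 : r i = 0
  · simp [h0]
  · rw [Real.rpow_def_of_pos (normSq_pos.2 (h i h0)), mul_comm]

omit [DecidableEq ι] in
theorem xm_exp (h : ∀ i, K i ≠ 0 → xi c i z ≠ 0) :
    normSq (xm c K z) = Real.exp (lm c (fun i => K i) z) := by
  rw [← xr_exp fun i hi => h i (by simpa using hi), xm, xr, map_prod]
  exact Finset.prod_congr rfl fun i _ => by rw [map_zpow₀, Real.rpow_intCast]

omit [DecidableEq ι] in
theorem xm_ne (h : ∀ i, K i ≠ 0 → xi c i z ≠ 0) : xm c K z ≠ 0 :=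
  normSq_pos.1 (by rw [xm_exp h]; exact Real.exp_pos _)

theorem xm_hol (h : ∀ i, K i < 0 → xi c i z ≠ 0) : HolN (xm c K) z := by
  have : ∀ᶠ w in 𝓝 z, ∀ i, xi c i w ≠ 0 ∨ 0 ≤ K i := eventually_all.2 fun i => by
    rcases lt_or_ge (K i) 0 with h1 | h1
    · exact ((MON.diff_xi c i).continuous.continuousAt.eventually_ne (h i h1)).mono
        fun _ => Or.inl
    · exact .of_forall fun _ => Or.inr h1
  exact this.mono fun w hw => MON.diff_xm hw

theorem xr_low (hr : ∀ i, -1 < r i ∧ r i ≤ 0) (hz : z ∈ B2 n) (h : ∀ i, r i ≠ 0 → xi c i z ≠ 0) :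
    (4⁻¹ : ℝ) ^ Fintype.card ι ≤ xr c r z := by
  rw [xr, ← Finset.card_univ, ← Finset.prod_const]
  refine Finset.prod_le_prod (fun _ _ => by norm_num) fun i _ => ?_
  by_cases h0 : r i = 0
  · rw [h0, Real.rpow_zero]
    norm_num
  have h1 : normSq (xi c i z) ≤ 4 := by
    rcases MON.xi_cases c i with ⟨-, e⟩ | ⟨j, -, e⟩ <;> rw [e]
    · norm_num
    · have := (norm_le_pi_norm z j).trans_lt (mem_ball_zero_iff.1 hz)
      rw [normSq_eq_norm_sq]
      nlinarith [norm_nonneg (z j)]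
  rw [← Real.rpow_neg_one]
  exact (Real.rpow_le_rpow_of_exponent_le (by norm_num) (hr i).1.le).trans
    (Real.rpow_le_rpow_of_nonpos (normSq_pos.2 (h i h0)) h1 (hr i).2)

omit [DecidableEq ι] in
theorem xr_int (hc : Inj c) (hr : ∀ i, -1 < r i) : IntegrableOn (xr c r) (B2 n) := by
  have e : xr c r = fun z : E n => ∏ j ∈ K78.cs c, ‖z j‖ ^ (2 * K78.lf c r j) := funext fun z => by
    rw [xr, K78.prod_cs hc (fun i ζ => normSq ζ ^ r i) (fun j ζ => ‖ζ‖ ^ (2 * K78.lf c r j))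
      (by simp) fun i j h => funext fun ζ => ?_]
    rw [K78.lf_eq hc r h, normSq_eq_norm_sq, Real.rpow_mul (norm_nonneg _), Real.rpow_two]
  rw [e]
  refine EXA.MINT.int_prod _ _ (fun j hj => ?_) 2 two_pos
  obtain ⟨i, hi⟩ := K78.mem_cs.1 hj
  rw [K78.lf_eq hc r hi]
  linarith [hr i]

omit [DecidableEq ι] in
theorem xm_div {a e : ι → ℕ} {J : ℕ} {g : ι → ℤ} (hJ : J ≠ 0)
    (hg : ∀ i, g i = J * (a i + e i) - K i) (h0 : ∀ i, g i = 0 ↔ a i = 0 ∧ e i = 0 ∧ K i = 0) :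
    xm c g z = (xm c (fun i => a i) z * xm c (fun i => e i) z) ^ J / xm c K z := by
  simp only [xm, ← Finset.prod_mul_distrib, ← Finset.prod_pow, ← Finset.prod_div_distrib]
  refine Finset.prod_congr rfl fun i _ => ?_
  by_cases h : xi c i z = 0
  · by_cases h1 : g i = 0
    · obtain ⟨b1, b2, b3⟩ := (h0 i).1 h1
      simp [h1, b1, b2, b3]
    · rw [h, zero_zpow _ h1, zpow_natCast, zpow_natCast, ← pow_add, ← pow_mul]
      by_cases h2 : K i = 0
      · rw [zero_pow (mul_ne_zero (fun h3 => h1 ((h0 i).2 ⟨by omega, by omega, h2⟩)) hJ), zero_div]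
      · rw [zero_zpow _ h2, div_zero]
  · rw [hg, zpow_sub₀ h, ← zpow_add₀ h, ← zpow_natCast, ← zpow_mul, mul_comm]

end euc

variable {M : Mf n} {D : Ad M ι} {W : Set M.X} {d : D.A} {z : E n}

omit [Fintype ι] [DecidableEq ι] in
theorem ex_ch (D : Ad M ι) (x : M.X) : ∃ d, x ∈ (D.e d).source := by
  obtain ⟨d, -, h⟩ := Finset.exists_ne_zero_of_sum_ne_zero ((D.sum x).trans_ne one_ne_zero)
  exact ⟨d, (D.supp d x h).1⟩

omit [Fintype ι] [DecidableEq ι] in
theorem tg (hz : z ∈ B2 n) : z ∈ (D.e d).target := by rwa [D.tgt]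

omit [Fintype ι] [DecidableEq ι] in
theorem on_ev (hW : IsOpen W) (hz : z ∈ B2 n) (hw : (D.e d).symm z ∈ W) :
    ∀ᶠ y in 𝓝 z, y ∈ B2 n ∧ (D.e d).symm y ∈ W :=
  (isOpen_ball.eventually_mem hz).and
    (((D.e d).continuousAt_symm (tg hz)).preimage_mem_nhds (hW.mem_nhds hw))

theorem on_at {p : D.A → E n → Prop} (h : D.On W p) {x : M.X} (hx : x ∈ (D.e d).source)
    (hw : x ∈ W) : p d (D.e d x) :=
  h d _ (TRF.mem_B D hx) (by rwa [(D.e d).left_inv hx])

variable {a : ι → ℕ} {ex : Set ι}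

omit [DecidableEq ι] in
theorem tau_ev (B : Bl D a ex) (hz : z ∈ B2 n) (hw : (D.e d).symm z ∈ B.W) :
    D.rd B.τ d =ᶠ[𝓝 z] fun y => xm (D.c d) (fun i => B.e i) y • B.t d y :=
  (on_ev B.opn hz hw).mono fun y hy => (B.thol d y hy.1 hy.2).2.2

theorem nat_hol (c : ι → Option (Fin n)) (a : ι → ℕ) (z : E n) : HolN (xm c fun i => a i) z :=
  xm_hol fun i hi => absurd hi (by omega)

/-- Generically étale coordinates. -/
theorem ex_q (B : Bl D a ex) (hn : B.W.Nonempty) : ∃ (q : M.X → E n) (l : Fin B.r) (d : D.A)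
    (z : E n), (D.On B.W fun d z => HolN (D.rd q d) z) ∧ z ∈ B2 n ∧ (D.e d).symm z ∈ B.W ∧
      Off (D.c d) z ∧ B.t d z l ≠ 0 ∧ (jm (D.rd q d) z).det ≠ 0 := by
  obtain ⟨x, hx⟩ := hn
  obtain ⟨d, hd⟩ := ex_ch D x
  obtain ⟨z, ho, hz, hw⟩ := ((MON.off_freq (D.c d) (D.e d x)).and_eventually
    (on_ev (d := d) B.opn (TRF.mem_B D hd) (by rwa [(D.e d).left_inv hd]))).exists
  have hτ : D.On B.W fun d z => HolN (fun y => (D.rd B.p d y, D.rd B.τ d y)) z :=
    fun d z hz hw => by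
      have h1 : HolN (D.rd B.τ d) z := hol_congr (by
        filter_upwards [nat_hol (D.c d) B.e z, (B.thol d z hz hw).1] with y b1 b2
          using b1.smul b2) (tau_ev B hz hw)
      filter_upwards [B.phol d z hz hw, h1] with y b1 b2 using b1.prodMk b2
  obtain ⟨h1, h2, -⟩ := B.thol d z hz hw
  have h3 := ((B.phol d z hz hw).self_of_nhds.hasFDerivAt.prodMk
    (((nat_hol (D.c d) B.e z).self_of_nhds.hasFDerivAt.smul
      h1.self_of_nhds.hasFDerivAt).congr_of_eventuallyEq (tau_ev B hz hw)))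
  obtain ⟨Λ, hΛ⟩ := LinearMap.exists_leftInverse_of_injective
    (fderiv ℂ (fun y => (D.rd B.p d y, D.rd B.τ d y)) z).toLinearMap
    (LinearMap.ker_eq_bot'.2 fun v hv => by
      rw [h3.fderiv] at hv
      have h4 := Prod.ext_iff.1 hv
      have h5 := MON.xm_ne (fun i => (B.e i : ℤ)) ho
      refine B.imm d z hz hw v (-(fderiv ℂ (xm (D.c d) fun i => B.e i) z v /
        xm (D.c d) (fun i => B.e i) z)) h4.1 (smul_right_injective _ h5 ?_)
      beta_reduce
      rw [smul_smul, mul_neg, mul_div_cancel₀ _ h5, neg_smul]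
      exact eq_neg_of_add_eq_zero_left h4.2)
  obtain ⟨l, hl⟩ := Function.ne_iff.1 h2
  have hq : D.On B.W fun d z => HolN (D.rd (fun y => Λ.toContinuousLinearMap (B.p y, B.τ y)) d) z :=
    fun d z hz hw => (hτ d z hz hw).mono fun y hy =>
      Λ.toContinuousLinearMap.differentiableAt.comp y hy
  refine ⟨_, l, d, z, hq, hz, hw, ho, hl, fun h => ?_⟩
  obtain ⟨v, hv, h4⟩ := Matrix.exists_mulVec_eq_zero_iff.2 h
  rw [← (mCHN n _ z (hq d z hz hw)).2.2.2.2.2.1] at h4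
  have h5 := (Λ.toContinuousLinearMap.hasFDerivAt.comp z h3.differentiableAt.hasFDerivAt).fderiv
  exact hv ((LinearMap.congr_fun hΛ v).symm.trans ((congrArg (· v) h5).symm.trans h4))

/-- The part of a log resolution that the vanishing theorem uses. -/
structure Rc (D : Ad M ι) where
  a : ι → ℕ
  k : ι → ℤ
  m : ℕ
  w : D.A → E n → ℂ
  ex : Set ι
  m0 : 0 < m
  whol : D.All fun b z => DifferentiableAt ℂ (w b) z
  wne : D.All fun b z => w b z ≠ 0
  wcmp : D.Ov fun b d x => w d (D.e d x) = w b (D.e b x) * D.um k b d x * (D.J b d x).det ^ m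
  off : ∀ i, a i = 0 → i ∉ ex → k i ≤ 0

/-- The quotient of the form by the Jacobian. -/
theorem ex_H (R : Rc D) {q : M.X → E n} (hq : D.On W fun d z => HolN (D.rd q d) z) :
    ∃ H : M.X → ℂ, D.On W fun d z =>
      D.rd H d z = R.w d z * xm (D.c d) R.k z / (jm (D.rd q d) z).det ^ R.m := by
  choose ix hx using ex_ch D
  refine ⟨fun x => R.w (ix x) (D.e (ix x) x) * xm (D.c (ix x)) R.k (D.e (ix x) x) /
    (jm (D.rd q (ix x)) (D.e (ix x) x)).det ^ R.m, fun d z hz hw => ?_⟩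
  have h1 := TRF.mem_src (a := d) D hz
  have h2 := R.wcmp _ d _ (hx _) h1
  have h3 := jm_tr (q := q) (D.mem _) (D.mem d) (hx _) h1 (on_at hq (hx _) hw)
  have h4 := TRF.xm_eq D (hx _) h1 R.k
  have h5 := ((mTR n M).2.1 _ (D.mem _) _ (D.mem d) _ (hx _) h1).2.1
  beta_reduce at h2 ⊢
  rw [TRF.rinv D hz] at h2 h3 h4
  have h6 : (jm (D.rd q d) z).det = _ := h3
  rw [h6, h2, Ad.rd, h4, mul_pow, mul_right_comm _ (_ ^ R.m), Ad.J,
    mul_div_mul_right _ _ (pow_ne_zero _ h5), mul_assoc]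
  rfl

end Pool.Agent.Lib.EXS.K32
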